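import Pool.Agent.N944.AD.Sc
import Mathlib.MeasureTheory.Measure.Lebesgue.VolumeOfBalls

/-!
Assouad dimension of planar sets with dense pieces.
-/

set_option autoImplicit false
set_option linter.unusedVariables false

namespace Pool.Agent.N944.AD

open MeasureTheory Filter Topology
open scoped ENNReal NNReal

/-- `F` is covered by at most `n` closed discs of radius `ρ`. -/
def Cov (n ρ : ℝ) (F : Set ℂ) : Prop :=
  ∃ S : Finset ℂ, (S.card : ℝ) ≤ n ∧ F ⊆ ⋃ y ∈ S, Metric.closedBall y ρ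

/-- the exponents of the Assouad dimension -/
def AS (F : Set ℂ) : Set ℝ :=
  {α : ℝ | 0 ≤ α ∧ ∃ C : ℝ, ∀ x ∈ F, ∀ ρ r : ℝ, 0 < ρ → ρ < r →
    Cov (C * (r / ρ) ^ α) ρ (F ∩ Metric.closedBall x r)}

theorem round_ex {x ρ r : ℝ} (hρ : 0 < ρ) (hr : |x| ≤ r) : ∃ m ∈ Finset.Icc (-⌈r / ρ⌉) ⌈r / ρ⌉,
    |x - ρ * ((m : ℤ) : ℝ)| ≤ ρ / 2 := by
  have h := abs_le.1 (abs_sub_round (x / ρ))
  have e : x = ρ * (x / ρ) := by field_simp
  obtain ⟨m, hm⟩ : ∃ m, m = round (x / ρ) := ⟨_, rfl⟩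
  rw [← hm] at h
  have h1 : |x / ρ| ≤ r / ρ := by
    rw [abs_div, abs_of_pos hρ]
    exact div_le_div_of_nonneg_right hr hρ.le
  have h2 := abs_le.1 h1
  have h3 := Int.le_ceil (r / ρ)
  refine ⟨m, ?_, ?_⟩
  · rw [Finset.mem_Icc]
    constructor
    · have h4 : (((-⌈r / ρ⌉ : ℤ)) : ℝ) < (m : ℝ) + 1 := by push_cast; linarith
      have h5 : -⌈r / ρ⌉ < m + 1 := by exact_mod_cast h4
      omega
    · have h4 : (m : ℝ) < ((⌈r / ρ⌉ : ℤ) : ℝ) + 1 := by linarith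
      have h5 : m < ⌈r / ρ⌉ + 1 := by exact_mod_cast h4
      omega
  · have e2 : x - ρ * (m : ℝ) = ρ * (x / ρ - m) := by rw [mul_sub, ← e]
    rw [e2, abs_mul, abs_of_pos hρ]
    have h5 : |x / ρ - m| ≤ 1/2 := abs_le.2 h
    have := mul_le_mul_of_nonneg_left h5 hρ.le
    linarith

theorem two_mem (F : Set ℂ) : (2:ℝ) ∈ AS F := by
  classical
  refine ⟨by norm_num, 25, fun x _ ρ r hρ hρr => ?_⟩
  obtain ⟨I, hI⟩ : ∃ I : Finset ℤ, I = Finset.Icc (-⌈r / ρ⌉) ⌈r / ρ⌉ := ⟨_, rfl⟩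
  have hr : 0 < r := hρ.trans hρr
  have h1 : 1 < r / ρ := by rw [lt_div_iff₀ hρ]; linarith
  refine ⟨(I ×ˢ I).image (fun m => x + ⟨ρ * m.1, ρ * m.2⟩), ?_, ?_⟩
  · have h2 : ((I ×ˢ I).image (fun m : ℤ × ℤ => x + (⟨ρ * m.1, ρ * m.2⟩ : ℂ))).card ≤
        I.card * I.card := by
      refine Finset.card_image_le.trans ?_
      rw [Finset.card_product]
    have h3 : (I.card : ℝ) ≤ 5 * (r / ρ) := by
      rw [hI, Int.card_Icc]
      have h4 := Int.ceil_lt_add_one (r / ρ)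
      have h5 : 0 ≤ ⌈r / ρ⌉ := Int.ceil_nonneg (by linarith)
      have h6 : (((⌈r / ρ⌉ + 1 - -⌈r / ρ⌉).toNat : ℕ) : ℝ) = 2 * ⌈r / ρ⌉ + 1 := by
        have : (((⌈r / ρ⌉ + 1 - -⌈r / ρ⌉).toNat : ℕ) : ℤ) = 2 * ⌈r / ρ⌉ + 1 := by omega
        exact_mod_cast this
      rw [h6]
      linarith
    have h4 : (((I ×ˢ I).image (fun m : ℤ × ℤ => x + (⟨ρ * m.1, ρ * m.2⟩ : ℂ))).card : ℝ) ≤
        (I.card : ℝ) * I.card := by exact_mod_cast h2
    refine h4.trans ?_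
    rw [Real.rpow_two]
    calc (I.card : ℝ) * I.card ≤ (5 * (r / ρ)) * (5 * (r / ρ)) :=
          mul_le_mul h3 h3 (Nat.cast_nonneg _) (by positivity)
      _ = 25 * (r / ρ) ^ 2 := by ring
  · rintro y ⟨-, hy⟩
    rw [Metric.mem_closedBall, dist_eq_norm] at hy
    have hre : |(y - x).re| ≤ r := (Complex.abs_re_le_norm _).trans hy
    have him : |(y - x).im| ≤ r := (Complex.abs_im_le_norm _).trans hy
    obtain ⟨m, hm, hm2⟩ := round_ex hρ hre
    obtain ⟨n, hn, hn2⟩ := round_ex hρ him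
    rw [Set.mem_iUnion₂]
    refine ⟨x + ⟨ρ * m, ρ * n⟩, ?_, ?_⟩
    · rw [Finset.mem_image]
      refine ⟨(m, n), ?_, rfl⟩
      rw [Finset.mem_product, hI]
      exact ⟨hm, hn⟩
    · rw [Metric.mem_closedBall, dist_eq_norm]
      refine (Complex.norm_le_abs_re_add_abs_im _).trans ?_
      have e1 : (y - (x + ⟨ρ * m, ρ * n⟩)).re = (y - x).re - ρ * m := by
        simp only [Complex.sub_re, Complex.add_re]; ring
      have e2 : (y - (x + ⟨ρ * m, ρ * n⟩)).im = (y - x).im - ρ * n := by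
        simp only [Complex.sub_im, Complex.add_im]; ring
      rw [e1, e2]
      linarith

/-- volume comparison -/
theorem card_ge {z : ℂ} {a b : ℝ} (ha : 0 ≤ a) (hb : 0 < b) {S : Finset ℂ}
    (h : Metric.closedBall z a ⊆ ⋃ y ∈ S, Metric.closedBall y b) :
    (a / b) ^ 2 ≤ (S.card : ℝ) := by
  have h1 : volume (Metric.closedBall z a) ≤ ∑ y ∈ S, volume (Metric.closedBall y b) :=
    (measure_mono h).trans (measure_biUnion_finset_le _ _)
  simp only [Complex.volume_closedBall] at h1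
  rw [Finset.sum_const, nsmul_eq_mul, ← mul_assoc] at h1
  have hpi : (NNReal.pi : ℝ≥0∞) ≠ 0 := by
    rw [ne_eq, ENNReal.coe_eq_zero]
    exact NNReal.pi_ne_zero
  have h2 := (ENNReal.mul_le_mul_iff_left hpi ENNReal.coe_ne_top).1 h1
  rw [← ENNReal.ofReal_pow ha, ← ENNReal.ofReal_pow hb.le, ← ENNReal.ofReal_natCast,
    ← ENNReal.ofReal_mul (Nat.cast_nonneg _)] at h2
  have h3 := (ENNReal.ofReal_le_ofReal_iff (by positivity)).1 h2
  rw [div_pow, div_le_iff₀ (by positivity)]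
  exact h3

/-- A set with dense pieces has Assouad dimension at least two. -/
theorem two_le {F : Set ℂ} {c : ℝ} (hc : 0 < c)
    (h : ∀ᶠ ρ : ℝ in 𝓝[>] 0, ∃ z : ℂ, ∀ y ∈ Metric.closedBall z ρ, ∃ x ∈ F,
      dist x y ≤ c * gap ρ) {α : ℝ} (hα : α ∈ AS F) : 2 ≤ α := by
  classical
  by_contra hcon
  push Not at hcon
  obtain ⟨hα0, C, hC⟩ := hα
  -- `√ log (1 / ρ)` tends to infinity
  have hlim : Tendsto (fun ρ : ℝ => Real.sqrt (Real.log (1 / ρ)) / c) (𝓝[>] 0) atTop := by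
    refine Tendsto.atTop_div_const hc ?_
    refine Real.tendsto_sqrt_atTop.comp (Real.tendsto_log_atTop.comp ?_)
    have h0 : Tendsto (fun ρ : ℝ => ρ⁻¹) (𝓝[>] 0) atTop := tendsto_inv_nhdsGT_zero
    exact h0.congr fun ρ => (one_div ρ).symm
  have hlim2 : Tendsto (fun ρ : ℝ => (Real.sqrt (Real.log (1 / ρ)) / c) ^ (2 - α)) (𝓝[>] 0)
      atTop := (tendsto_rpow_atTop (by linarith)).comp hlim
  obtain ⟨ρ, ⟨⟨h1, h2⟩, h3⟩, h4⟩ := (((h.and (hlim.eventually (eventually_ge_atTop 4))).and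
    (hlim2.eventually (eventually_gt_atTop (16 * C * 2 ^ α)))).and
      self_mem_nhdsWithin).exists
  have hρ : 0 < ρ := h4
  obtain ⟨x, hx⟩ : ∃ x : ℝ, x = Real.sqrt (Real.log (1 / ρ)) / c := ⟨_, rfl⟩
  rw [← hx] at h2 h3
  have hx0 : 0 < x := by linarith
  obtain ⟨ε, hε⟩ : ∃ ε : ℝ, ε = c * gap ρ := ⟨_, rfl⟩
  rw [← hε] at h1
  have hs : 0 < Real.sqrt (Real.log (1 / ρ)) := by
    have : Real.sqrt (Real.log (1 / ρ)) = x * c := by rw [hx]; field_simp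
    rw [this]; positivity
  have hεx : ε = ρ / x := by
    rw [hε, hx]; unfold gap; field_simp
  have hε0 : 0 < ε := by rw [hεx]; positivity
  have hε4 : ε ≤ ρ / 4 := by
    rw [hεx]; exact div_le_div_of_nonneg_left hρ.le (by norm_num) h2
  obtain ⟨z, hz⟩ := h1
  obtain ⟨x0, hx0F, hx0z⟩ := hz z (Metric.mem_closedBall_self hρ.le)
  obtain ⟨S, hS1, hS2⟩ := hC x0 hx0F ε (2 * ρ) hε0 (by linarith)
  have hsub : Metric.closedBall z (ρ / 2) ⊆ ⋃ y ∈ S, Metric.closedBall y (2 * ε) := by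
    intro y hy
    obtain ⟨w, hwF, hwy⟩ := hz y (Metric.closedBall_subset_closedBall (by linarith) hy)
    rw [Metric.mem_closedBall] at hy
    have hw : w ∈ F ∩ Metric.closedBall x0 (2 * ρ) := by
      refine ⟨hwF, ?_⟩
      rw [Metric.mem_closedBall]
      have a1 := dist_triangle4 w y z x0
      rw [dist_comm z x0] at a1
      linarith
    have h5 := hS2 hw
    rw [Set.mem_iUnion₂] at h5 ⊢
    obtain ⟨s, hs1, hs2⟩ := h5
    refine ⟨s, hs1, ?_⟩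
    rw [Metric.mem_closedBall] at hs2 ⊢
    have a1 := dist_triangle y w s
    rw [dist_comm y w] at a1
    linarith
  have h5 := card_ge (by positivity) (by positivity) hsub
  have e1 : ρ / 2 / (2 * ε) = x / 4 := by rw [hεx]; field_simp; norm_num
  have e2 : 2 * ρ / ε = 2 * x := by rw [hεx]; field_simp
  rw [e1] at h5
  rw [e2, Real.mul_rpow (by norm_num) hx0.le] at hS1
  have h6 : (x / 4) ^ 2 ≤ C * (2 ^ α * x ^ α) := h5.trans hS1
  have h7 : x ^ (2 - α) * x ^ α = x ^ 2 := by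
    rw [← Real.rpow_add hx0, sub_add_cancel, Real.rpow_two]
  have hxα : 0 < x ^ α := Real.rpow_pos_of_pos hx0 _
  have h8 : 16 * C * 2 ^ α * x ^ α < x ^ (2 - α) * x ^ α := mul_lt_mul_of_pos_right h3 hxα
  rw [h7] at h8
  have h9 : (x / 4) ^ 2 = x ^ 2 / 16 := by ring
  rw [h9] at h6
  linarith

end Pool.Agent.N944.AD
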