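import Pool.Agent.Y995.FS.SlowTr

/-!
Dense pieces of the critical interface: the trial event and its deterministic consequence. A strand
which passes a comb of open and closed dual teeth visits every column between two teeth.
-/

set_option autoImplicit false
set_option linter.unusedVariables false

namespace Pool.Agent.N944.AD

open H974 Finset H342P H984P H984N Pool.Agent.Y995.FS TH992.T

/-- `v` is connected to the strand by open edges. -/
def SnV (A y0 X Y : ℤ) (T m : ℕ) (F : Set Edg) (v : Vtx) : Prop :=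
  Reach (F ∩ ↑(Exm F (st0 A y0) T ∪ Bl X Y m)) (st0 A y0).1 v

/-- The face `f` is connected to the strand by closed edges. -/
def SnF (A y0 X Y : ℤ) (T m : ℕ) (F : Set Edg) (f : Vtx) : Prop :=
  DReach (↑(Exm F (st0 A y0) T ∪ Bl X Y m) \ F) (face (st0 A y0)) f

/-- A column between the two sides is visited by the strand. -/
theorem col_exm {F : Set Edg} {A y0 X Y X' Y' : ℤ} {T T' m : ℕ}
    (hst' : Strand F A y0 X' Y' T') (hT : T ≤ T') (hX' : X + 60 * m < X')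
    (hA : A + 60 * m ≤ X) {x y1 y2 : ℤ} (hx : A ≤ x ∧ x < X') (hy : y1 ≤ y2)
    (h1 : SnV A y0 X Y T m F (x, y1)) (h2 : SnF A y0 X Y T m F (x, y2)) :
    ∃ y, y1 ≤ y ∧ y ≤ y2 ∧ ∃ t < T', ae (orb F (st0 A y0) t) = (x, y, true) := by
  obtain ⟨hv', hf, hS⟩ := side_exists hst'
  have hmono : Exm F (st0 A y0) T ⊆ Exm F (st0 A y0) T' := it_exm_mono hT
  have hWA : (↑(Exm F (st0 A y0) T ∪ Bl X Y m) : Set Edg) ⊆ Adm F A y0 X' Y' T' := by
    intro e he
    rw [Finset.mem_coe, Finset.mem_union] at he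
    rcases he with he | he
    · have h1 := exm_loc hst' (hmono he)
      exact ⟨Or.inr (hmono he), fun h2 => by omega⟩
    · have h1 : A ≤ e.1 ∧ e.1 < X' := by
        obtain ⟨x, y, _ | _⟩ := e
        · rw [Bl, mem_RE_false] at he; simp only; omega
        · rw [Bl, mem_RE_true] at he; simp only; omega
      exact ⟨Or.inl h1.1, fun h2 => by omega⟩
  have h0 := hS.strand 0 (Nat.zero_le _)
  rw [orb_zero] at h0
  have e1 := hv_reach hS hWA h1
  have e2 := hf_reach hS hWA h2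
  rw [h0.1] at e1
  rw [h0.2] at e2
  by_contra hcon
  push Not at hcon
  have hfree : ∀ y, y1 ≤ y → y ≤ y2 → hf (x, y - 1) = hf (x, y) ∧ hv' (x, y) = hf (x, y) := by
    intro y hy1 hy2
    have hne : ((x, y, true) : Edg) ∉ Exm F (st0 A y0) T' := by
      intro h
      rw [mem_Exm] at h
      obtain ⟨t, ht, h⟩ := h
      exact hcon y hy1 hy2 t ht h
    have h3 := hS.free (x, y, true) hne hx.1 (fun h4 => by
      have := h4.1
      simp only at this
      omega)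
    simp only [src_mk, dtgt_mk, dsrc_true] at h3
    exact ⟨h3.2.1, h3.2.2⟩
  have key : ∀ n : ℕ, y1 + n ≤ y2 → hf (x, y1 + n) = 0 := by
    intro n
    induction n with
    | zero =>
      intro h
      rw [Nat.cast_zero, add_zero]
      rw [← (hfree y1 le_rfl hy).2, ← e1]
    | succ n ih =>
      intro h
      push_cast at h ⊢
      have h3 := (hfree (y1 + (n + 1)) (by omega) h).1
      rw [← h3, show y1 + ((n : ℤ) + 1) - 1 = y1 + n by ring]
      exact ih (by omega)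
  have h5 := key (y2 - y1).toNat (by omega)
  have h6 : y1 + ((y2 - y1).toNat : ℤ) = y2 := by omega
  rw [h6, ← e2] at h5
  exact absurd h5 (by decide)

/-- The trial event: in every column of the comb, the lower side and the upper side are connected to
the strand. -/
def Qd (m b I : ℕ) : TEv := fun A y0 X Y T F =>
  ∀ i < I, ∀ x : ℤ, X + 28 * m ≤ x → x ≤ X + 36 * m → ∃ y1 y2 : ℤ, yt Y m b i ≤ y1 ∧ y1 ≤ y2 ∧
    y2 ≤ yt Y m b i + 20 * b ∧ SnV A y0 X Y T m F (x, y1) ∧ SnF A y0 X Y T m F (x, y2)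

/-- The path visits the middle parts of all the cells of a `k × k` grid of cells of side `4 l`. -/
def gD (l k : ℕ) (x : ℕ → Vtx) (t : ℕ) : Prop :=
  ∃ z : Vtx, ∀ p < k, ∀ q < k, ∃ s ≤ t,
    (z.1 + 4 * l * p + l ≤ (x s).1 ∧ (x s).1 ≤ z.1 + 4 * l * p + 3 * l) ∧
    (z.2 + 4 * l * q + l ≤ (x s).2 ∧ (x s).2 ≤ z.2 + 4 * l * q + 3 * l)

theorem gD_good (l k : ℕ) : PGood (gD l k) where
  congr x x' t h := by
    rintro ⟨z, hz⟩
    refine ⟨z, fun p hp q hq => ?_⟩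
    obtain ⟨s, hs, h1⟩ := hz p hp q hq
    exact ⟨s, hs, by rw [← h s hs]; exact h1⟩
  mono x s0 t' t h := by
    rintro ⟨z, hz⟩
    refine ⟨z, fun p hp q hq => ?_⟩
    obtain ⟨s, hs, h1⟩ := hz p hp q hq
    exact ⟨s + s0, by omega, h1⟩
  rot x t := by
    rintro ⟨z, hz⟩
    refine ⟨(z.2, -z.1 - 4 * l * k), fun p hp q hq => ?_⟩
    obtain ⟨s, hs, ⟨h1, h2⟩, h3, h4⟩ := hz (k - 1 - q) (by omega) p hp
    have e : ((k - 1 - q : ℕ) : ℤ) = k - 1 - q := by omega
    rw [e] at h1 h2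
    refine ⟨s, hs, ⟨h3, h4⟩, ?_, ?_⟩
    · have : (x s).2 = -(rV (x s)).1 := by simp [rV]
      rw [this]
      simp only
      nlinarith
    · have : (x s).2 = -(rV (x s)).1 := by simp [rV]
      rw [this]
      simp only
      nlinarith
  trl x t b c := by
    rintro ⟨z, hz⟩
    refine ⟨(z.1 - b, z.2 - c), fun p hp q hq => ?_⟩
    obtain ⟨s, hs, ⟨h1, h2⟩, h3, h4⟩ := hz p hp q hq
    simp only at h1 h2 h3 h4 ⊢
    exact ⟨s, hs, ⟨by omega, by omega⟩, by omega, by omega⟩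

theorem sn_congr {A y0 X Y : ℤ} {T m : ℕ} {F G : Set Edg}
    (h1 : ∀ e ∈ Exm F (st0 A y0) T, (e ∈ F ↔ e ∈ G)) (h2 : ∀ e ∈ Bl X Y m, (e ∈ F ↔ e ∈ G))
    (v : Vtx) : (SnV A y0 X Y T m F v → SnV A y0 X Y T m G v) ∧
      (SnF A y0 X Y T m F v → SnF A y0 X Y T m G v) := by
  have hE : Exm G (st0 A y0) T = Exm F (st0 A y0) T := Exm_congr h1
  have hW : ∀ e ∈ (↑(Exm F (st0 A y0) T ∪ Bl X Y m) : Set Edg), (e ∈ F ↔ e ∈ G) := by
    intro e he
    rw [Finset.mem_coe, Finset.mem_union] at he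
    rcases he with he | he
    · exact h1 e he
    · exact h2 e he
  unfold SnV SnF
  rw [hE]
  refine ⟨fun h => h.mono ?_, fun h => h.mono ?_⟩
  · rintro e ⟨he, he'⟩
    exact ⟨(hW e he').1 he, he'⟩
  · rintro e ⟨he, he'⟩
    exact ⟨he, fun h => he' ((hW e he).2 h)⟩

theorem Qd_loc {m b I : ℕ} : LocQ m (Qd m b I) := by
  intro A y0 X Y T F G h1 h2 h i hi x hx1 hx2
  obtain ⟨y1, y2, g1, g2, g3, g4, g5⟩ := h i hi x hx1 hx2
  exact ⟨y1, y2, g1, g2, g3, (sn_congr h1 h2 _).1 g4, (sn_congr h1 h2 _).2 g5⟩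

theorem Qd_det {m b I K : ℕ} (hm : 1 ≤ m) (hb : 1 ≤ b) (hH : HgtC m b I) :
    DetQ (Qd m b I) m K (gD (10 * b) I) := by
  intro F A y0 Y T j Yj Tj hst hj hjK hstj hTj hQ
  have hm1 : (1 : ℤ) ≤ m := by exact_mod_cast hm
  have hb1 : (1 : ℤ) ≤ b := by exact_mod_cast hb
  have hj' : (1 : ℤ) ≤ j := by exact_mod_cast hj
  have hjK' : (j : ℤ) + 1 ≤ K := by exact_mod_cast hjK
  have e1 : 121 * (m : ℤ) ≤ 121 * m * j := by nlinarith
  have e2 : 121 * (m : ℤ) * j + 121 * m ≤ 121 * m * K := by nlinarith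
  obtain ⟨X, hX⟩ : ∃ X : ℤ, X = A + 121 * m * j := ⟨_, rfl⟩
  rw [← hX] at hstj hQ
  have hyt0 : ∀ q : ℕ, yt Yj m b q = yt Yj m b 0 + 40 * b * q := by
    intro q
    unfold yt
    push_cast
    ring
  refine ⟨(X + 28 * m, yt Yj m b 0 - 10 * b), fun p hp q hq => ?_⟩
  have hH' : 40 * (b : ℤ) * I ≤ 4 * m := by
    have h3 := hH
    unfold HgtC at h3
    exact_mod_cast h3
  have hpI : (p : ℤ) + 1 ≤ I := by exact_mod_cast hp
  have h3 : 40 * (b : ℤ) * p + 40 * b ≤ 4 * m := by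
    have : 40 * (b : ℤ) * (p + 1) ≤ 40 * b * I := mul_le_mul_of_nonneg_left hpI (by positivity)
    linarith
  have h4 : (0 : ℤ) ≤ 40 * (b : ℤ) * p := by positivity
  obtain ⟨y1, y2, g1, g2, g3, g4, g5⟩ := hQ q hq (X + 28 * m + 40 * b * p + 20 * b)
    (by linarith) (by linarith)
  obtain ⟨y, k1, k2, t, ht, k3⟩ := col_exm hst hTj (by omega) (by omega) (by omega) g2 g4 g5
  refine ⟨t, ht.le, ?_⟩
  simp only
  rw [hyt0 q] at g1 g3
  have k4 := ae_at (v := (X + 28 * m + 40 * b * p + 20 * b, y)) k3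
  push_cast
  have e3 : 4 * (10 * (b : ℤ)) * p = 40 * b * p := by ring
  have e4 : 4 * (10 * (b : ℤ)) * q = 40 * b * q := by ring
  rw [e3, e4]
  rcases k4 with ⟨k5, -⟩ | ⟨k5, -⟩
  · rw [k5]
    simp only
    refine ⟨⟨?_, ?_⟩, ?_, ?_⟩ <;> linarith
  · rw [k5]
    simp only
    refine ⟨⟨?_, ?_⟩, ?_, ?_⟩ <;> linarith

end Pool.Agent.N944.AD
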