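import Pool.Agent.N944.AD.Sc

/-!
Holes of the critical interface at all scales.
-/

set_option autoImplicit false
set_option linter.unusedVariables false

namespace Pool.Agent.N944.AD

open H984N Pool.Agent.Y995.FS MeasureTheory Filter Topology

/-- the scales of the holes -/
noncomputable def tH (M : ℕ) (j : ℕ) : ℝ := 8 * M * nj j * (1/2) ^ j

theorem tH_pos {M : ℕ} (hM : 1 ≤ M) (j : ℕ) : 0 < tH M j := by
  unfold tH nj
  have : (0:ℝ) < M := by exact_mod_cast hM
  positivity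

theorem tH_step {M : ℕ} (j : ℕ) : tH M j ≤ 2 * tH M (j + 1) := by
  unfold tH
  have h1 : nj j ≤ nj (j + 1) := by
    unfold nj
    have : Nat.sqrt j ≤ Nat.sqrt (j + 1) := Nat.sqrt_le_sqrt (Nat.le_succ j)
    omega
  have h2 : ((nj j : ℕ) : ℝ) ≤ nj (j + 1) := by exact_mod_cast h1
  have e : 2 * (8 * (M:ℝ) * nj (j + 1) * (1/2) ^ (j + 1)) = 8 * M * nj (j + 1) * (1/2) ^ j := by
    rw [pow_succ]; ring
  rw [e]
  refine mul_le_mul_of_nonneg_right (mul_le_mul_of_nonneg_left h2 (by positivity)) (by positivity)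

theorem nj_le (j : ℕ) : ((nj j : ℕ) : ℝ) ≤ 6 * (j + 1) := by
  have h1 : nj j ≤ 6 * (j + 1) := by
    unfold nj
    have := Nat.sqrt_le_self j
    omega
  exact_mod_cast h1

theorem tH_lim (M : ℕ) : Tendsto (tH M) atTop (𝓝 0) := by
  have h1 : Tendsto (fun j : ℕ => 48 * (M:ℝ) * ((j : ℝ) ^ 1 * ((1:ℝ)/2) ^ j + ((1:ℝ)/2) ^ j)) atTop
      (𝓝 (48 * (M:ℝ) * (0 + 0))) :=
    ((tendsto_pow_const_mul_const_pow_of_lt_one 1 (by norm_num) (by norm_num)).add
      (tendsto_pow_atTop_nhds_zero_of_lt_one (by norm_num) (by norm_num))).const_mul _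
  have e : 48 * (M:ℝ) * (0 + 0) = 0 := by ring
  rw [e] at h1
  refine squeeze_zero (fun j => ?_) (fun j => ?_) h1
  · unfold tH; positivity
  · unfold tH
    have h2 := nj_le j
    calc 8 * (M:ℝ) * nj j * (1/2) ^ j ≤ 8 * M * (6 * (j + 1)) * (1/2) ^ j :=
          mul_le_mul_of_nonneg_right (mul_le_mul_of_nonneg_left h2 (by positivity)) (by positivity)
      _ = _ := by ring

/-- eventually, `16 M nj j 2 ^ (-j) ≤ 2 ^ (-j/2)` -/
theorem tH_small (M : ℕ) : ∀ᶠ j : ℕ in atTop, 2 * tH M j ≤ Real.exp (-(j / 4 : ℝ)) := by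
  have h1 : Tendsto (fun j : ℕ => 96 * (M:ℝ) * ((j : ℝ) ^ 1 * ((2:ℝ)/3) ^ j + ((2:ℝ)/3) ^ j)) atTop
      (𝓝 (96 * (M:ℝ) * (0 + 0))) :=
    ((tendsto_pow_const_mul_const_pow_of_lt_one 1 (by norm_num) (by norm_num)).add
      (tendsto_pow_atTop_nhds_zero_of_lt_one (by norm_num) (by norm_num))).const_mul _
  have e : 96 * (M:ℝ) * (0 + 0) = 0 := by ring
  rw [e] at h1
  filter_upwards [h1.eventually (ge_mem_nhds one_pos)] with j hj
  have h2 := nj_le j
  have h3 : ((1:ℝ)/2) ^ j ≤ (2/3) ^ j * Real.exp (-(j / 4 : ℝ)) := by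
    have h4 : Real.exp (-(j / 4 : ℝ)) = (Real.exp (-(1/4))) ^ j := by
      rw [← Real.exp_nat_mul]; congr 1; ring
    rw [h4, ← mul_pow]
    refine pow_le_pow_left₀ (by norm_num) ?_ _
    have h5 : (3:ℝ)/4 ≤ Real.exp (-(1/4)) := by
      have := Real.add_one_le_exp (-(1/4) : ℝ)
      linarith
    linarith
  have hE := Real.exp_pos (-(j / 4 : ℝ))
  unfold tH
  calc 2 * (8 * (M:ℝ) * nj j * (1/2) ^ j) ≤ 2 * (8 * M * (6 * (j + 1)) *
        ((2/3) ^ j * Real.exp (-(j / 4 : ℝ)))) := by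
        refine mul_le_mul_of_nonneg_left ?_ (by norm_num)
        exact mul_le_mul (mul_le_mul_of_nonneg_left h2 (by positivity)) h3 (by positivity)
          (by positivity)
    _ = (96 * M * ((j : ℝ) ^ 1 * ((2:ℝ)/3) ^ j + ((2:ℝ)/3) ^ j)) *
        Real.exp (-(j / 4 : ℝ)) := by ring
    _ ≤ 1 * Real.exp (-(j / 4 : ℝ)) := mul_le_mul_of_nonneg_right hj hE.le
    _ = _ := one_mul _

/-- the constant of the holes -/
noncomputable def ch (M : ℕ) : ℝ := 1 / (1152 * M)

theorem ch_pos {M : ℕ} (hM : 1 ≤ M) : 0 < ch M := by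
  unfold ch
  have : (0:ℝ) < M := by exact_mod_cast hM
  positivity

theorem gap_pos {ρ : ℝ} (h0 : 0 < ρ) (h1 : ρ < Real.exp (-1)) :
    0 < gap ρ ∧ gap ρ ≤ ρ := by
  have hlog1 : 1 ≤ Real.log (1 / ρ) := by
    rw [one_div, Real.log_inv]
    have := Real.log_le_log h0 h1.le
    rw [Real.log_exp] at this
    linarith
  have h2 : 1 ≤ Real.sqrt (Real.log (1 / ρ)) := by
    rw [Real.one_le_sqrt]; exact hlog1
  unfold gap
  exact ⟨by positivity, div_le_self h0.le h2⟩

theorem dep_neg {R : Rect} {z : ℂ} (h : dep R z < 0) : z ∉ closure R.D := by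
  intro hz
  have h1 : closure R.D ⊆ {z | 0 ≤ dep R z} := by
    refine closure_minimal ?_ (isClosed_le continuous_const (dep_cont R))
    rintro y ⟨h1, h2, h3, h4⟩
    simp only [Set.mem_ofPred_eq]
    unfold dep
    refine le_min (le_min ?_ ?_) (le_min ?_ ?_) <;> linarith
  have := h1 hz
  simp only [Set.mem_ofPred_eq] at this
  linarith

/-- there is a hole near a point which is close to the boundary -/
theorem hole_bdry {R : Rect} {f : C(unitInterval, ℂ)} (hcl : ∀ u, f u ∈ closure R.D) {ρ : ℝ}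
    (hρ : 0 < ρ) {z : ℂ} (hz : dep R z ≤ ρ / 2) : ∃ y : ℂ,
      Metric.closedBall y (ρ / 8) ⊆ Metric.closedBall z ρ ∧
        ∀ u, f u ∉ Metric.closedBall y (ρ / 8) := by
  have key : ∃ y : ℂ, dist y z ≤ 3 / 4 * ρ ∧ dep R y ≤ -(ρ / 4) := by
    have h1 := hz
    unfold dep at h1
    rw [min_le_iff, min_le_iff, min_le_iff] at h1
    have nrm : ∀ (w : ℂ), (w.re = 0 ∧ |w.im| = 3/4 * ρ) ∨ (w.im = 0 ∧ |w.re| = 3/4 * ρ) →
        dist (z + w) z ≤ 3 / 4 * ρ := by
      intro w hw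
      rw [dist_eq_norm, add_sub_cancel_left]
      refine (Complex.norm_le_abs_re_add_abs_im _).trans ?_
      rcases hw with ⟨h2, h3⟩ | ⟨h2, h3⟩
      · rw [h2, h3]; simp
      · rw [h2, h3]; simp
    have habs : |3/4 * ρ| = 3/4 * ρ := abs_of_nonneg (by linarith)
    have habs' : |-(3/4 * ρ)| = 3/4 * ρ := by rw [abs_neg, habs]
    rcases h1 with (h1 | h1) | (h1 | h1)
    · refine ⟨z + ⟨-(3/4 * ρ), 0⟩, nrm _ (Or.inr ⟨rfl, habs'⟩), ?_⟩
      unfold dep
      refine (min_le_left _ _).trans ((min_le_left _ _).trans ?_)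
      simp only [Complex.add_re]
      linarith
    · refine ⟨z + ⟨3/4 * ρ, 0⟩, nrm _ (Or.inr ⟨rfl, habs⟩), ?_⟩
      unfold dep
      refine (min_le_left _ _).trans ((min_le_right _ _).trans ?_)
      simp only [Complex.add_re]
      linarith
    · refine ⟨z + ⟨0, -(3/4 * ρ)⟩, nrm _ (Or.inl ⟨rfl, habs'⟩), ?_⟩
      unfold dep
      refine (min_le_right _ _).trans ((min_le_left _ _).trans ?_)
      simp only [Complex.add_im]
      linarith
    · refine ⟨z + ⟨0, 3/4 * ρ⟩, nrm _ (Or.inl ⟨rfl, habs⟩), ?_⟩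
      unfold dep
      refine (min_le_right _ _).trans ((min_le_right _ _).trans ?_)
      simp only [Complex.add_im]
      linarith
  obtain ⟨y, hy1, hy2⟩ := key
  refine ⟨y, fun x hx => ?_, fun u hu => ?_⟩
  · rw [Metric.mem_closedBall] at hx ⊢
    have := dist_triangle x y z
    linarith
  · rw [Metric.mem_closedBall] at hu
    refine dep_neg (R := R) (z := f u) ?_ (hcl u)
    have := dep_lip R (f u) y
    linarith

/-- holes at all scales -/
theorem hole_all {M : ℕ} (hM3 : 3 ≤ M) {R : Rect} {p : X} (hcl : ∀ u, p.1 u ∈ closure R.D)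
    (h : ∀ᶠ j : ℕ in atTop, p ∉ BadH R ((1/2) ^ j) M (nj j)) :
    ∀ᶠ ρ : ℝ in 𝓝[>] 0, ∀ z : ℂ, ∃ y : ℂ,
      Metric.closedBall y (ch M * gap ρ) ⊆ Metric.closedBall z ρ ∧
        ∀ u, p.1 u ∉ Metric.closedBall y (ch M * gap ρ) := by
  obtain ⟨j0, hj0⟩ := eventually_atTop.1 (h.and (tH_small M))
  have hM1 : 1 ≤ M := by omega
  have hMR : (3:ℝ) ≤ M := by exact_mod_cast hM3
  have hsc := scale (tH_pos hM1) (tH_lim M) tH_step (max j0 1)
  filter_upwards [hsc, self_mem_nhdsWithin, (eventually_lt_nhds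
      (Real.exp_pos (-1))).filter_mono nhdsWithin_le_nhds] with ρ h1 h2 h3
  have hρ0 : 0 < ρ := h2
  obtain ⟨j, g1, g2, g3⟩ := h1
  obtain ⟨k1, k2⟩ := hj0 j ((le_max_left _ _).trans g1)
  have hj1 : 1 ≤ j := (le_max_right _ _).trans g1
  have hj1R : (1:ℝ) ≤ j := by exact_mod_cast hj1
  obtain ⟨r, hr⟩ : ∃ r : ℝ, r = (1/2) ^ j := ⟨_, rfl⟩
  have hr0 : 0 < r := by rw [hr]; positivity
  obtain ⟨N, hN⟩ : ∃ N : ℕ, N = nj j := ⟨_, rfl⟩
  have hN1 : 1 ≤ N := by rw [hN]; unfold nj; omega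
  have hNR : (1:ℝ) ≤ N := by exact_mod_cast hN1
  have hN3 : (3:ℝ) ≤ N := by
    have : 3 ≤ N := by rw [hN]; unfold nj; omega
    exact_mod_cast this
  rw [← hr, ← hN] at k1
  have et : tH M j = 8 * M * N * r := by unfold tH; rw [hN, hr]
  rw [et] at g2 g3 k2
  obtain ⟨hg1, hg2⟩ := gap_pos hρ0 h3
  have hc0 := ch_pos hM1
  have hc1 : ch M ≤ 1/8 := by
    unfold ch
    rw [div_le_div_iff₀ (by positivity) (by norm_num)]
    linarith
  have hcg : ch M * gap ρ ≤ ρ / 8 := by
    calc ch M * gap ρ ≤ 1/8 * ρ := mul_le_mul hc1 hg2 hg1.le (by norm_num)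
      _ = ρ / 8 := by ring
  -- the log
  have hrb : ch M * gap ρ ≤ r / 2 := by
    have hlog : (j : ℝ) / 4 ≤ Real.log (1 / ρ) := by
      have h5 : ρ ≤ Real.exp (-(j / 4 : ℝ)) := g3.trans k2
      have h6 := Real.log_le_log hρ0 h5
      rw [Real.log_exp] at h6
      rw [one_div, Real.log_inv]
      linarith
    have hN2 : (N : ℝ) ≤ 6 * Real.sqrt j := by
      have h7 : ((Nat.sqrt j : ℕ) : ℝ) ≤ Real.sqrt j := Real.nat_sqrt_le_real_sqrt
      have h8 : 1 ≤ Real.sqrt j := by rw [Real.one_le_sqrt]; exact hj1R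
      rw [hN]
      unfold nj
      push_cast
      linarith
    have hs2 : Real.sqrt j ≤ 2 * Real.sqrt (Real.log (1 / ρ)) := by
      have h9 : (j : ℝ) ≤ 2 ^ 2 * Real.log (1 / ρ) := by linarith
      have h10 := Real.sqrt_le_sqrt h9
      rwa [Real.sqrt_mul (by norm_num), Real.sqrt_sq (by norm_num)] at h10
    have hs0 : 0 < Real.sqrt (Real.log (1 / ρ)) := Real.sqrt_pos.2 (by linarith)
    unfold gap ch
    rw [← mul_div_assoc, div_le_iff₀ hs0]
    have h11 : ρ ≤ 2 * (8 * M * (12 * Real.sqrt (Real.log (1 / ρ))) * r) := by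
      refine g3.trans ?_
      refine mul_le_mul_of_nonneg_left ?_ (by norm_num)
      refine mul_le_mul_of_nonneg_right ?_ hr0.le
      exact mul_le_mul_of_nonneg_left (by linarith) (by positivity)
    calc 1 / (1152 * (M:ℝ)) * ρ ≤ 1 / (1152 * (M:ℝ)) *
          (2 * (8 * M * (12 * Real.sqrt (Real.log (1 / ρ))) * r)) :=
          mul_le_mul_of_nonneg_left h11 (by positivity)
      _ = 1/6 * (r * Real.sqrt (Real.log (1 / ρ))) := by field_simp; norm_num
      _ ≤ 1/2 * (r * Real.sqrt (Real.log (1 / ρ))) :=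
          mul_le_mul_of_nonneg_right (by norm_num) (by positivity)
      _ = r / 2 * Real.sqrt (Real.log (1 / ρ)) := by ring
  intro z
  by_cases hz : dep R z ≤ ρ / 2
  · obtain ⟨y, hy1, hy2⟩ := hole_bdry hcl hρ0 hz
    have hsub := Metric.closedBall_subset_closedBall (x := y) hcg
    exact ⟨y, hsub.trans hy1, fun u hu => hy2 u (hsub hu)⟩
  · push Not at hz
    obtain ⟨a, ha⟩ : ∃ a : ℤ × ℤ, a = (⌊z.re / r⌋, ⌊z.im / r⌋) := ⟨_, rfl⟩
    have a1 : r * a.1 ≤ z.re ∧ z.re ≤ r * a.1 + r := by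
      have b1 := Int.floor_le (z.re / r)
      have b2 := Int.lt_floor_add_one (z.re / r)
      have e : z.re = r * (z.re / r) := by field_simp
      have c1 := mul_le_mul_of_nonneg_left b1 hr0.le
      have c2 := mul_le_mul_of_nonneg_left b2.le hr0.le
      rw [← e] at c1 c2
      rw [ha]
      simp only
      constructor <;> linarith
    have a2 : r * a.2 ≤ z.im ∧ z.im ≤ r * a.2 + r := by
      have b1 := Int.floor_le (z.im / r)
      have b2 := Int.lt_floor_add_one (z.im / r)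
      have e : z.im = r * (z.im / r) := by field_simp
      have c1 := mul_le_mul_of_nonneg_left b1 hr0.le
      have c2 := mul_le_mul_of_nonneg_left b2.le hr0.le
      rw [← e] at c1 c2
      rw [ha]
      simp only
      constructor <;> linarith
    have hMN : M * N * r ≤ ρ / 8 := by linarith
    have hMr : M * r ≤ ρ / 24 := by
      have : M * 3 * r ≤ M * N * r :=
        mul_le_mul_of_nonneg_right (mul_le_mul_of_nonneg_left hN3 (by positivity)) hr0.le
      linarith
    have hrρ : r ≤ ρ / 72 := by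
      have : 3 * r ≤ M * r := mul_le_mul_of_nonneg_right hMR hr0.le
      linarith
    have hdist : ∀ i : Fin N × Fin N, dist (yc r M a i.1 i.2) z ≤ ρ / 3 := by
      rintro ⟨⟨i, hi⟩, ⟨k, hk⟩⟩
      rw [dist_eq_norm]
      refine (Complex.norm_le_abs_re_add_abs_im _).trans ?_
      rw [Complex.sub_re, Complex.sub_im]
      unfold yc
      simp only
      have hiN : (i : ℝ) ≤ N := by exact_mod_cast hi.le
      have hkN : (k : ℝ) ≤ N := by exact_mod_cast hk.le
      have m1 : r * (M * i) ≤ ρ / 8 := by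
        have : r * (M * i) ≤ r * (M * N) :=
          mul_le_mul_of_nonneg_left (mul_le_mul_of_nonneg_left hiN (by positivity)) hr0.le
        linarith
      have m2 : r * (M * k) ≤ ρ / 8 := by
        have : r * (M * k) ≤ r * (M * N) :=
          mul_le_mul_of_nonneg_left (mul_le_mul_of_nonneg_left hkN (by positivity)) hr0.le
        linarith
      have m3 : 0 ≤ r * (M * i) := by positivity
      have m4 : 0 ≤ r * (M * k) := by positivity
      have n1 : |r * ((a.1 : ℝ) + M * i) - z.re| ≤ ρ / 8 + ρ / 72 := by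
        rw [abs_le]; constructor <;> linarith
      have n2 : |r * ((a.2 : ℝ) + M * k) - z.im| ≤ ρ / 8 + ρ / 72 := by
        rw [abs_le]; constructor <;> linarith
      linarith
    have hin : InB R r M N a := by
      intro i
      have := dep_lip R z (yc r M a i.1 i.2)
      rw [dist_comm] at this
      have h5 := hdist i
      linarith
    have hnot : p ∉ HitA R r M N a := fun hcon => k1 ⟨a, hin, hcon⟩
    unfold HitA at hnot
    simp only [Set.mem_ofPred_eq, not_forall, not_exists] at hnot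
    obtain ⟨i, hi⟩ := hnot
    refine ⟨yc r M a i.1 i.2, fun x hx => ?_, fun u hu => ?_⟩
    · rw [Metric.mem_closedBall] at hx ⊢
      have h5 := dist_triangle x (yc r M a i.1 i.2) z
      have h6 := hdist i
      linarith
    · refine hi u ?_
      rw [Metric.mem_closedBall] at hu
      have hre := ML.le_dist_re (p.1 u) (yc r M a i.1 i.2)
      have him := ML.le_dist_im (p.1 u) (yc r M a i.1 i.2)
      exact ⟨by linarith, by linarith⟩

end Pool.Agent.N944.AD
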