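import Pool.Agent.N944.AD.Tr
import Pool.Agent.Y995.FS.LimS2

/-!
Dense pieces of the critical interface: passage to the limit.
-/

set_option autoImplicit false
set_option linter.unusedVariables false

namespace Pool.Agent.N944.AD

open H974 Finset H342P H984P H984N Pool.Agent.Y995.FS MeasureTheory Filter Topology

/-- The closed cell `(p, q)` of the grid of cells of side `r` with lower left corner `z`. -/
def Cl (z : ℂ) (r : ℝ) (p q : ℕ) : Set ℂ :=
  {y | (z.re + r * p ≤ y.re ∧ y.re ≤ z.re + r * (p + 1)) ∧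
    (z.im + r * q ≤ y.im ∧ y.im ≤ z.im + r * (q + 1))}

/-- The piece `f [s, t]` meets all the cells of a `k × k` grid of cells of side `r`. -/
def DG (f : C(unitInterval, ℂ)) (D r : ℝ) (k : ℕ) (s t : unitInterval) : Prop :=
  ∃ z : ℂ, ‖z‖ ≤ D ∧ ∀ c : Fin k × Fin k, ∃ u : unitInterval, (s ≤ u ∧ u ≤ t) ∧
    f u ∈ Cl z r c.1 c.2

/-- Curves with a piece in the bulk which is not dense. -/
def BadD (R : Rect) (ρ r : ℝ) (k : ℕ) : Set X :=
  {p | ∃ s t : unitInterval, s < t ∧ 5 * ρ < dep R (p.1 s) ∧ ρ < dist (p.1 s) (p.1 t) ∧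
    ¬ DG p.1 (rad R) r k s t}

theorem badD_open (R : Rect) (ρ r : ℝ) (k : ℕ) : IsOpen (BadD R ρ r k) := by
  obtain ⟨BB, hBB⟩ : ∃ BB : Set ℂ, BB = Metric.closedBall 0 (rad R) := ⟨_, rfl⟩
  have hBc : IsCompact BB := by rw [hBB]; exact isCompact_closedBall _ _
  have : CompactSpace BB := isCompact_iff_compactSpace.1 hBc
  have hmem : ∀ z : ℂ, z ∈ BB ↔ ‖z‖ ≤ rad R := by
    intro z; rw [hBB, mem_closedBall_zero_iff]
  have e : BadD R ρ r k = ⋃ s : unitInterval, ⋃ t : unitInterval, ⋃ _ : s < t,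
      (({p : X | 5 * ρ < dep R (p.1 s)} ∩ {p : X | ρ < dist (p.1 s) (p.1 t)}) ∩
        (Prod.fst '' {x : X × (BB × (Fin k × Fin k → unitInterval)) |
          ∀ c : Fin k × Fin k, (s ≤ x.2.2 c ∧ x.2.2 c ≤ t) ∧
            x.1.1 (x.2.2 c) ∈ Cl x.2.1 r c.1 c.2})ᶜ) := by
    ext p
    simp only [BadD, DG, Set.mem_ofPred_eq, Set.mem_iUnion, Set.mem_inter_iff, Set.mem_compl_iff,
      Set.mem_image, exists_prop]
    constructor
    · rintro ⟨s, t, h1, h2, h3, h4⟩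
      refine ⟨s, t, h1, ⟨h2, h3⟩, ?_⟩
      rintro ⟨⟨p', ⟨z, hz⟩, u⟩, a1, rfl⟩
      exact h4 ⟨z, (hmem z).1 hz, fun c => ⟨u c, a1 c⟩⟩
    · rintro ⟨s, t, h1, ⟨h2, h3⟩, h4⟩
      refine ⟨s, t, h1, h2, h3, ?_⟩
      rintro ⟨z, hz, h5⟩
      choose u hu using h5
      exact h4 ⟨(p, (⟨z, (hmem z).2 hz⟩, u)), hu, rfl⟩
  rw [e]
  refine isOpen_iUnion fun s => isOpen_iUnion fun t => isOpen_iUnion fun _ => ?_
  refine IsOpen.inter (IsOpen.inter ?_ ?_) ?_
  · have c0 : Continuous (fun p : X => p.1 s) := by fun_prop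
    exact isOpen_lt continuous_const ((dep_cont R).comp c0)
  · have c0 : Continuous (fun p : X => p.1 s) := by fun_prop
    have c1 : Continuous (fun p : X => p.1 t) := by fun_prop
    exact isOpen_lt continuous_const (c0.dist c1)
  · rw [isOpen_compl_iff]
    refine isClosedMap_fst_of_compactSpace _ ?_
    rw [Set.ofPred_forall]
    refine isClosed_iInter fun c => ?_
    have cu : Continuous (fun x : X × (BB × (Fin k × Fin k → unitInterval)) => x.2.2 c) := by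
      fun_prop
    have cf : Continuous (fun x : X × (BB × (Fin k × Fin k → unitInterval)) => x.1.1) := by
      fun_prop
    have cv : Continuous (fun x : X × (BB × (Fin k × Fin k → unitInterval)) =>
        x.1.1 (x.2.2 c)) := continuous_eval.comp (cf.prodMk cu)
    have cz : Continuous (fun x : X × (BB × (Fin k × Fin k → unitInterval)) => (x.2.1 : ℂ)) := by
      fun_prop
    have cvr := Complex.continuous_re.comp cv
    have cvi := Complex.continuous_im.comp cv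
    have czr := Complex.continuous_re.comp cz
    have czi := Complex.continuous_im.comp cz
    have c1 : IsClosed {x : X × (BB × (Fin k × Fin k → unitInterval)) | s ≤ x.2.2 c} :=
      isClosed_le continuous_const cu
    have c2 : IsClosed {x : X × (BB × (Fin k × Fin k → unitInterval)) | x.2.2 c ≤ t} :=
      isClosed_le cu continuous_const
    refine IsClosed.inter (c1.inter c2) (IsClosed.inter ?_ ?_)
    · exact (isClosed_le (czr.add continuous_const) cvr).inter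
        (isClosed_le cvr (czr.add continuous_const))
    · exact (isClosed_le (czi.add continuous_const) cvi).inter
        (isClosed_le cvi (czi.add continuous_const))

/-- Bad curves at mesh `δ` come from bad pieces of the path. -/
theorem badD_mesh {R : Rect} {δ ρ r : ℝ} {b k : ℕ} (hδ : 0 < δ) (hρ : δ ≤ ρ) (hδ2 : δ ≤ 1/8)
    (hb : 1 ≤ b) (hk0 : 0 < k) (hr1 : 40 * b * δ ≤ r) (hr2 : k * (r - 40 * b * δ) ≤ 9 * b * δ)
    (hr3 : r ≤ 1/4) {F : Finset Edg} (hok : (R.dm δ).Ok)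
    (hF : F ⊆ (R.dm δ).edges)
    (h : (R.curve δ F, R.time δ F) ∈ BadD R ρ r k) : GBad (gD (10 * b) k) R δ ρ F := by
  classical
  obtain ⟨s, t, hst, h1, h2, h3⟩ := h
  obtain ⟨n, hn⟩ : ∃ n, n = (R.dm δ).len F := ⟨_, rfl⟩
  obtain ⟨p, hp⟩ : ∃ p : ℕ → ℂ, p = fun k => pos δ ((R.dm δ).walk F k) := ⟨_, rfl⟩
  have hc : R.curve δ F = pl n p := by unfold Rect.curve; rw [hn, hp]
  simp only [hc] at h1 h2 h3
  have hstep : ∀ k < n, dist (p k) (p (k + 1)) ≤ δ / 2 := fun k _ => by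
    have := pos_nxt hδ.le ((R.dm δ).cfg F) ((R.dm δ).walk F k)
    rw [hp]
    rwa [← walk_succ] at this
  obtain ⟨hn0, i, l, hil, hl, hsi, hlt, d1, d2⟩ := nodes (by positivity) hstep hst
    (by linarith)
  have hn' : (0 : ℝ) < n := by exact_mod_cast hn0
  have hb0 : (1 : ℝ) ≤ b := by exact_mod_cast hb
  have hbδ : δ ≤ b * δ := le_mul_of_one_le_left hδ.le hb0
  refine ⟨i, l, hil, by rw [← hn]; exact hl, ?_, ?_, ?_⟩
  · have h4 := dep_lip R (pl n p s) (p i)
    have h5 : p i = pos δ ((R.dm δ).walk F i) := by rw [hp]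
    rw [← h5]
    linarith
  · have h4 : dist (pl n p s) (pl n p t) ≤ dist (pl n p s) (p i) + dist (p i) (p l) +
        dist (p l) (pl n p t) := dist_triangle4 _ _ _ _
    rw [dist_comm (p l)] at h4
    have h5 : p i = pos δ ((R.dm δ).walk F i) := by rw [hp]
    have h6 : p l = pos δ ((R.dm δ).walk F l) := by rw [hp]
    rw [← h5, ← h6]
    linarith
  · rintro ⟨z, hz⟩
    apply h3
    obtain ⟨z', hz'⟩ : ∃ z' : ℂ, z' = ⟨δ * z.1, δ * (z.2 + 1)⟩ := ⟨_, rfl⟩
    have key : ∀ c : Fin k × Fin k, ∃ u : unitInterval, (s ≤ u ∧ u ≤ t) ∧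
        (pl n p) u ∈ Cl z' r c.1 c.2 ∧ ∃ a : ℕ, (pl n p) u = p a := by
      rintro ⟨⟨a, ha⟩, ⟨c, hc⟩⟩
      obtain ⟨q, hq, ⟨g1, g2⟩, g3, g4⟩ := hz a ha c hc
      have hiq : i + q ≤ n := by omega
      refine ⟨nodeT n (i + q) hiq, ⟨?_, ?_⟩, ?_, ⟨i + q, pl_nodeT hiq hn0⟩⟩
      · change (s : ℝ) ≤ ((i + q : ℕ) : ℝ) / n
        rw [le_div_iff₀ hn']
        push_cast
        have : (0 : ℝ) ≤ q := Nat.cast_nonneg _
        linarith
      · change ((i + q : ℕ) : ℝ) / n ≤ (t : ℝ)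
        rw [div_le_iff₀ hn']
        have : ((i + q : ℕ) : ℝ) ≤ l := by exact_mod_cast (by omega : i + q ≤ l)
        linarith
      · rw [pl_nodeT hiq hn0]
        have e1 : p (i + q) = pos δ ((R.dm δ).walk F (i + q)) := by rw [hp]
        rw [e1]
        simp only at g1 g2 g3 g4
        obtain ⟨σ, hσ⟩ : ∃ σ, σ = (R.dm δ).walk F (i + q) := ⟨_, rfl⟩
        rw [← hσ] at g1 g2 g3 g4 ⊢
        have w1 : ((z.1 : ℤ) : ℝ) + 40 * b * a + 10 * b ≤ ((σ.1.1 : ℤ) : ℝ) := by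
          have : (((z.1 + 4 * (10 * b : ℕ) * a + (10 * b : ℕ) : ℤ)) : ℝ) ≤ ((σ.1.1 : ℤ) : ℝ) := by
            exact_mod_cast g1
          push_cast at this
          linarith
        have w2 : ((σ.1.1 : ℤ) : ℝ) ≤ ((z.1 : ℤ) : ℝ) + 40 * b * a + 30 * b := by
          have : ((σ.1.1 : ℤ) : ℝ) ≤ (((z.1 + 4 * (10 * b : ℕ) * a + 3 * (10 * b : ℕ) : ℤ)) : ℝ) := by
            exact_mod_cast g2
          push_cast at this
          linarith
        have w3 : ((z.2 : ℤ) : ℝ) + 40 * b * c + 10 * b ≤ ((σ.1.2 : ℤ) : ℝ) := by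
          have : (((z.2 + 4 * (10 * b : ℕ) * c + (10 * b : ℕ) : ℤ)) : ℝ) ≤ ((σ.1.2 : ℤ) : ℝ) := by
            exact_mod_cast g3
          push_cast at this
          linarith
        have w4 : ((σ.1.2 : ℤ) : ℝ) ≤ ((z.2 : ℤ) : ℝ) + 40 * b * c + 30 * b := by
          have : ((σ.1.2 : ℤ) : ℝ) ≤ (((z.2 + 4 * (10 * b : ℕ) * c + 3 * (10 * b : ℕ) : ℤ)) : ℝ) := by
            exact_mod_cast g4
          push_cast at this
          linarith
        have hx := abs_le.1 (ML.qx_le σ.2)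
        have hy := abs_le.1 (ML.qy_le σ.2)
        have v1 := mul_le_mul_of_nonneg_left w1 hδ.le
        have v2 := mul_le_mul_of_nonneg_left w2 hδ.le
        have v3 := mul_le_mul_of_nonneg_left w3 hδ.le
        have v4 := mul_le_mul_of_nonneg_left w4 hδ.le
        have hx1 := mul_le_mul_of_nonneg_left hx.1 hδ.le
        have hx2 := mul_le_mul_of_nonneg_left hx.2 hδ.le
        have hy1 := mul_le_mul_of_nonneg_left hy.1 hδ.le
        have hy2 := mul_le_mul_of_nonneg_left hy.2 hδ.le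
        have hrb : 0 ≤ r - 40 * b * δ := by linarith
        have hak : (a : ℝ) * (r - 40 * b * δ) ≤ 9 * b * δ := by
          refine le_trans (mul_le_mul_of_nonneg_right ?_ hrb) hr2
          exact_mod_cast ha.le
        have hck : (c : ℝ) * (r - 40 * b * δ) ≤ 9 * b * δ := by
          refine le_trans (mul_le_mul_of_nonneg_right ?_ hrb) hr2
          exact_mod_cast hc.le
        have ha0 : 0 ≤ (a : ℝ) * (r - 40 * b * δ) := mul_nonneg (Nat.cast_nonneg _) hrb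
        have hc0 : 0 ≤ (c : ℝ) * (r - 40 * b * δ) := mul_nonneg (Nat.cast_nonneg _) hrb
        unfold Cl
        rw [hz']
        simp only [Set.mem_ofPred_eq]
        rw [ML.pos_re, ML.pos_im]
        refine ⟨⟨?_, ?_⟩, ?_, ?_⟩
        · nlinarith
        · nlinarith
        · nlinarith
        · nlinarith
    refine ⟨z', ?_, fun c => ?_⟩
    · obtain ⟨u, -, h5, a, ha⟩ := key (⟨0, hk0⟩, ⟨0, hk0⟩)
      obtain ⟨y, hy, hy2⟩ := R.pos_near hδ (walk_in hok hF a)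
      have h5' : p a = pos δ ((R.dm δ).walk F a) := by rw [hp]
      rw [← h5'] at hy2
      have h6 := norm_D hy
      rw [ha] at h5
      have h7 : ‖z' - p a‖ ≤ 2 * r := by
        refine (Complex.norm_le_abs_re_add_abs_im _).trans ?_
        obtain ⟨⟨a1, a2⟩, a3, a4⟩ := h5
        simp only [Nat.cast_zero, mul_zero, add_zero, zero_add, mul_one] at a1 a2 a3 a4
        rw [Complex.sub_re, Complex.sub_im]
        have b1 : |z'.re - (p a).re| ≤ r := by rw [abs_le]; constructor <;> linarith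
        have b2 : |z'.im - (p a).im| ≤ r := by rw [abs_le]; constructor <;> linarith
        linarith
      have h8 : ‖z'‖ ≤ ‖z' - p a‖ + (dist (p a) y + ‖y‖) := by
        have a1 : ‖z'‖ ≤ ‖z' - p a‖ + ‖p a‖ := by
          have := norm_add_le (z' - p a) (p a)
          rwa [sub_add_cancel] at this
        have a2 : ‖p a‖ ≤ dist (p a) y + ‖y‖ := by
          rw [dist_eq_norm]
          have := norm_add_le (p a - y) y
          rwa [sub_add_cancel] at this
        linarith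
      unfold rad
      linarith
    · obtain ⟨u, h5, h6, -⟩ := key c
      exact ⟨u, h5, h6⟩

/-- number of cells per side -/
noncomputable def kj (j : ℕ) : ℕ := Nat.sqrt j / 10

/-- side of the cells -/
noncomputable def rj (K : ℝ) (j : ℕ) : ℝ :=
  10 / 3 * Real.exp (-2 * (K * j)) / (Nat.sqrt j : ℕ)

/-- The dense pieces exist at mesh `δ`. -/
theorem dense_lat : ∃ K3 : ℝ, 1 ≤ K3 ∧ ∀ R : Rect, ∀ ρ : ℝ, 0 < ρ → ∃ C1 : ℝ, 0 < C1 ∧
      ∀ j : ℕ, 400 ≤ j → 1000 * Real.exp (-2 * (K3 * j)) ≤ ρ → ∃ δ1 : ℝ, 0 < δ1 ∧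
        ∀ δ : ℝ, 0 < δ → δ ≤ δ1 →
          R.prob δ (fun F => (R.curve δ F, R.time δ F) ∈ BadD R ρ (rj K3 j) (kj j)) ≤
            C1 * Real.exp (-2 * (K3 * j)) := by
  obtain ⟨K3, hK3, htr⟩ := dense_tr
  refine ⟨K3, hK3, fun R => ?_⟩
  obtain ⟨δ0', hδ0', hlat⟩ := lat_bound R
  obtain ⟨κs, Ss, δs, -, -, hδs, -, hsh⟩ := R.shape
  obtain ⟨δ0, hδ0e⟩ : ∃ δ0 : ℝ, δ0 = min δ0' δs := ⟨_, rfl⟩
  have hδ0 : 0 < δ0 := by rw [hδ0e]; exact lt_min hδ0' hδs
  have hδ0a : δ0 ≤ δ0' := by rw [hδ0e]; exact min_le_left _ _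
  have hδ0b : δ0 ≤ δs := by rw [hδ0e]; exact min_le_right _ _
  intro ρ hρ
  obtain ⟨C1, hC1, h1⟩ := hlat ρ hρ
  refine ⟨C1, hC1, fun j hj hjρ => ?_⟩
  obtain ⟨w, hw⟩ : ∃ w : ℝ, w = Real.exp (-2 * (K3 * j)) := ⟨_, rfl⟩
  have hw0 : 0 < w := by rw [hw]; exact Real.exp_pos _
  have hjR : (400 : ℝ) ≤ j := by exact_mod_cast hj
  have hw1 : w ≤ 1/2 := by
    rw [hw]
    have h2 : Real.exp (-2 * (K3 * j)) ≤ Real.exp (-1) := Real.exp_le_exp.mpr (by nlinarith)
    have h3 := Real.exp_neg_one_lt_d9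
    linarith
  obtain ⟨kk, hkk⟩ : ∃ kk, kk = Nat.sqrt j := ⟨_, rfl⟩
  have hkk20 : 20 ≤ kk := by
    rw [hkk, Nat.le_sqrt]; omega
  have hkkj : kk * kk ≤ j := by rw [hkk]; exact Nat.sqrt_le j
  have hkR : (20 : ℝ) ≤ kk := by exact_mod_cast hkk20
  have hk0 : (0 : ℝ) < kk := by linarith
  have hkkjR : (kk : ℝ) ^ 2 ≤ j := by rw [sq]; exact_mod_cast hkkj
  obtain ⟨r, hr⟩ : ∃ r : ℝ, r = 10 / 3 * w / kk := ⟨_, rfl⟩
  have er : rj K3 j = r := by unfold rj; rw [hr, hw, hkk]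
  have ek : kj j = kk / 10 := by unfold kj; rw [hkk]
  rw [er, ek]
  have hrk : r * kk = 10 / 3 * w := by rw [hr]; field_simp
  have hr14 : r ≤ 1/4 := by nlinarith
  refine ⟨min δ0 (w / (600 * kk ^ 2)), lt_min hδ0 (by positivity),
    fun δ hδ hδ' => ?_⟩
  have hδa : δ ≤ δ0 := hδ'.trans (min_le_left _ _)
  have hδc : δ ≤ w / (600 * kk ^ 2) := hδ'.trans (min_le_right _ _)
  have hδ3' : 600 * kk ^ 2 * δ ≤ w := by
    rw [le_div_iff₀ (by positivity)] at hδc
    linarith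
  have hkk2 : 20 * (kk : ℝ) ≤ kk ^ 2 := by nlinarith
  have hδ3 : 240 * kk * δ ≤ w := by nlinarith
  have hδ4 : 4800 * δ ≤ w := by nlinarith
  obtain ⟨b, hb⟩ : ∃ b : ℕ, b = ⌊w / (12 * δ * kk)⌋₊ := ⟨_, rfl⟩
  have hb1 : (b : ℝ) ≤ w / (12 * δ * kk) := by rw [hb]; exact Nat.floor_le (by positivity)
  have hb2 : w / (12 * δ * kk) < b + 1 := by rw [hb]; exact Nat.lt_floor_add_one _
  have hb3 : 50 * kk ≤ w / (12 * δ * kk) := by rw [le_div_iff₀ (by positivity)]; nlinarith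
  have hb4 : 49 * (kk : ℝ) < b := by linarith
  have hb5 : 1 ≤ b := by
    have : (1 : ℝ) ≤ b := by linarith
    exact_mod_cast this
  rw [le_div_iff₀ (by positivity)] at hb1
  rw [div_lt_iff₀ (by positivity)] at hb2
  obtain ⟨m, hm⟩ : ∃ m : ℕ, m = b * kk := ⟨_, rfl⟩
  have hmR : (m : ℝ) = b * kk := by rw [hm]; push_cast; ring
  have hm1 : 12 * (m * δ) ≤ w := by rw [hmR]; linarith
  have hm2 : w ≤ 24 * (m * δ) := by
    rw [hmR]
    have : (b : ℝ) + 1 ≤ 2 * b := by linarith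
    have h2 : ((b : ℝ) + 1) * (12 * δ * kk) ≤ (2 * b) * (12 * δ * kk) :=
      mul_le_mul_of_nonneg_right this (by positivity)
    linarith
  have hm5 : 5 ≤ m := by
    rw [hm]
    calc 5 ≤ 1 * 20 := by norm_num
      _ ≤ b * kk := Nat.mul_le_mul hb5 hkk20
  have hm0 : (0 : ℝ) < m := by
    have : 0 < m := by omega
    exact_mod_cast this
  have hmb1 : b * kk ≤ m := by rw [hm]
  have hmb2 : m ≤ 2 * b * kk := by
    rw [hm, mul_assoc]
    omega
  have hI1 : 10 * (kk / 10) ≤ kk := by omega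
  have hI0 : 0 < kk / 10 := by omega
  have hH : HgtC m b (kk / 10) := by
    unfold HgtC
    calc 40 * b * (kk / 10) = 4 * (b * (10 * (kk / 10))) := by ring
      _ ≤ 4 * (b * kk) := Nat.mul_le_mul_left _ (Nat.mul_le_mul_left _ hI1)
      _ ≤ 4 * m := Nat.mul_le_mul_left _ hmb1
  have hbd := h1 (K3 * j) (by positivity) hjρ δ hδ (hδa.trans hδ0a) (by rw [← hw]; linarith) m hm5
    (by rw [← hw]; exact hm2) (by rw [← hw]; nlinarith) (Qd m b (kk / 10))
    (gD (10 * b) (kk / 10)) (gD_good _ _) Qd_loc (fun K => Qd_det (by omega) hb5 hH)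
    (fun n x y A y0 => by
      refine trQ_mono (Real.exp_le_exp.mpr ?_) (htr m b kk hb5 hmb1 hmb2 hkk20 _ A y0)
      have : K3 * (kk : ℝ) ^ 2 ≤ K3 * j := mul_le_mul_of_nonneg_left hkkjR (by linarith)
      linarith)
  rw [← hw] at hbd ⊢
  refine le_trans (Pr_mono (okq (by norm_num) (by norm_num)) (fun F hFs hF => ?_)) hbd
  have hrb1 : 40 * b * δ ≤ r := by
    rw [hr, le_div_iff₀ hk0]
    linarith
  have hrb2 : r - 40 * b * δ ≤ 40 * δ := by
    have : r ≤ 40 * (b + 1) * δ := by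
      rw [hr, div_le_iff₀ hk0]
      linarith
    linarith
  refine badD_mesh hδ (by linarith) (by linarith) hb5 hI0 hrb1 ?_ hr14
    (hsh δ hδ (hδa.trans hδ0b)).ok hFs hF
  have h10 : ((kk / 10 : ℕ) : ℝ) ≤ kk / 10 := by
    have h11 : ((10 * (kk / 10) : ℕ) : ℝ) ≤ kk := by exact_mod_cast hI1
    push_cast at h11
    linarith
  calc ((kk / 10 : ℕ) : ℝ) * (r - 40 * b * δ) ≤ (kk / 10) * (40 * δ) :=
        mul_le_mul h10 hrb2 (by linarith) (by positivity)
    _ = 4 * kk * δ := by ring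
    _ ≤ 9 * b * δ := mul_le_mul_of_nonneg_right (by linarith) hδ.le

end Pool.Agent.N944.AD
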