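import Pool.Agent.N944.AD.UpLim

/-!
Holes of the critical interface: almost sure statement.
-/

set_option autoImplicit false
set_option linter.unusedVariables false

namespace Pool.Agent.N944.AD

open H974 Finset H342P H984P H984N Pool.Agent.Y995.FS MeasureTheory Filter Topology

/-- size of the arrays -/
noncomputable def nj (j : ℕ) : ℕ := 3 * (Nat.sqrt j + 1)

theorem nj_sq (j : ℕ) : 9 * j ≤ nj j ^ 2 := by
  unfold nj
  have h := Nat.lt_succ_sqrt j
  have h2 : Nat.succ (Nat.sqrt j) = Nat.sqrt j + 1 := rfl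
  rw [h2] at h
  nlinarith

/-- union bound over the arrays -/
theorem badH_pr {C2 : ℝ} (hC2 : 0 < C2) (hA : AnnUp C2) {M : ℕ} (hM3 : 3 ≤ M)
    (hM : C2 * (8 / (M : ℝ)) ^ (1/4 : ℝ) ≤ 1/2) {R : Rect} {δ r : ℝ} (hδ : 0 < δ)
    (hr1 : r ≤ 1) (hδr : 100 * δ ≤ r) (hok : (R.dm δ).Ok) {N : ℕ} (hN : 1 ≤ N) :
    R.prob δ (fun F => (R.curve δ F, R.time δ F) ∈ BadH R r M N) ≤
      ((R.A + R.B + R.H + 4) / r) ^ 2 * (1/2) ^ (N ^ 2) := by
  classical
  have hr0 : 0 < r := by linarith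
  have hA0 := R.hA
  have hB0 := R.hB
  have hH0 := R.hH
  have hMR : (3:ℝ) ≤ M := by exact_mod_cast hM3
  obtain ⟨s, hs⟩ : ∃ s : Finset (ℤ × ℤ), s = Finset.Icc (-⌈R.A / r⌉) ⌈R.B / r⌉ ×ˢ
    Finset.Icc 0 ⌈R.H / r⌉ := ⟨_, rfl⟩
  have hmem : ∀ a : ℤ × ℤ, InB R r M N a → a ∈ s := by
    intro a ha
    have h1 := ha (⟨0, hN⟩, ⟨0, hN⟩)
    have h2 : 0 < dep R (yc r M a 0 0) := lt_of_lt_of_le (by positivity) h1
    unfold dep at h2
    rw [lt_min_iff, lt_min_iff, lt_min_iff] at h2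
    have e1 : (yc r M a 0 0).re = r * a.1 := by unfold yc; simp
    have e2 : (yc r M a 0 0).im = r * a.2 := by unfold yc; simp
    rw [e1, e2] at h2
    obtain ⟨⟨g1, g2⟩, g3, g4⟩ := h2
    rw [hs, mem_product, mem_Icc, mem_Icc]
    refine ⟨⟨?_, ?_⟩, ?_, ?_⟩
    · have h3 : -(R.A / r) ≤ a.1 := by
        rw [← neg_div, div_le_iff₀ hr0]; linarith
      have h4 := Int.le_ceil (R.A / r)
      have h5 : ((-⌈R.A / r⌉ : ℤ) : ℝ) ≤ (a.1 : ℝ) := by push_cast; linarith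
      exact_mod_cast h5
    · have h3 : (a.1 : ℝ) ≤ R.B / r := by rw [le_div_iff₀ hr0]; linarith
      have h4 := Int.le_ceil (R.B / r)
      exact_mod_cast h3.trans h4
    · have h3 : (0 : ℝ) ≤ a.2 := by nlinarith
      exact_mod_cast h3
    · have h3 : (a.2 : ℝ) ≤ R.H / r := by rw [le_div_iff₀ hr0]; linarith
      have h4 := Int.le_ceil (R.H / r)
      exact_mod_cast h3.trans h4
  have hcard : (s.card : ℝ) ≤ ((R.A + R.B + R.H + 4) / r) ^ 2 := by
    rw [hs, card_product, Int.card_Icc, Int.card_Icc, Nat.cast_mul, sq]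
    have a1 := Int.ceil_lt_add_one (R.A / r)
    have a2 := Int.ceil_lt_add_one (R.B / r)
    have a3 := Int.ceil_lt_add_one (R.H / r)
    have b1 : 0 ≤ ⌈R.A / r⌉ := Int.ceil_nonneg (by positivity)
    have b2 : 0 ≤ ⌈R.B / r⌉ := Int.ceil_nonneg (by positivity)
    have b3 : 0 ≤ ⌈R.H / r⌉ := Int.ceil_nonneg (by positivity)
    have c1 : (((⌈R.B / r⌉ + 1 - -⌈R.A / r⌉).toNat : ℕ) : ℝ) = ⌈R.B / r⌉ + 1 + ⌈R.A / r⌉ := by
      have : (((⌈R.B / r⌉ + 1 - -⌈R.A / r⌉).toNat : ℕ) : ℤ) = ⌈R.B / r⌉ + 1 + ⌈R.A / r⌉ := by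
        omega
      exact_mod_cast this
    have c2 : (((⌈R.H / r⌉ + 1 - 0).toNat : ℕ) : ℝ) = ⌈R.H / r⌉ + 1 := by
      have : (((⌈R.H / r⌉ + 1 - 0).toNat : ℕ) : ℤ) = ⌈R.H / r⌉ + 1 := by
        omega
      exact_mod_cast this
    rw [c1, c2]
    have d1 : 4 ≤ 4 / r := by rw [le_div_iff₀ hr0]; linarith
    have e : (R.A + R.B + R.H + 4) / r = R.A / r + R.B / r + R.H / r + 4 / r := by
      rw [add_div, add_div, add_div]
    have f1 : 0 < R.A / r := by positivity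
    have f2 : 0 < R.B / r := by positivity
    have f3 : 0 < R.H / r := by positivity
    have b1' : (0:ℝ) ≤ ⌈R.A / r⌉ := by exact_mod_cast b1
    have b2' : (0:ℝ) ≤ ⌈R.B / r⌉ := by exact_mod_cast b2
    have b3' : (0:ℝ) ≤ ⌈R.H / r⌉ := by exact_mod_cast b3
    rw [e]
    refine mul_le_mul (by linarith) (by linarith) (by linarith) (by positivity)
  have hsub : R.prob δ (fun F => (R.curve δ F, R.time δ F) ∈ BadH R r M N) ≤
      R.prob δ (fun F => ∃ a ∈ s.filter (fun a => InB R r M N a),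
        (R.curve δ F, R.time δ F) ∈ HitA R r M N a) := by
    refine Pr_mono two_ok fun F _ h => ?_
    obtain ⟨a, h1, h2⟩ := h
    exact ⟨a, mem_filter.2 ⟨hmem a h1, h1⟩, h2⟩
  refine hsub.trans ((Pr_exists_le two_ok _ _ _).trans ?_)
  refine (Finset.sum_le_card_nsmul _ _ ((1/2) ^ (N ^ 2)) fun a ha => ?_).trans ?_
  · rw [mem_filter] at ha
    exact hitA_pr hC2 hA hM3 hM hδ hδr hok ha.2
  · rw [nsmul_eq_mul]
    refine mul_le_mul_of_nonneg_right (le_trans ?_ hcard) (by positivity)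
    exact_mod_cast Finset.card_filter_le _ _

/-- almost surely, no array of size `nj j` is visited at small scales -/
theorem hole_ae {C2 : ℝ} (hC2 : 0 < C2) (hA : AnnUp C2) {M : ℕ} (hM3 : 3 ≤ M)
    (hM : C2 * (8 / (M : ℝ)) ^ (1/4 : ℝ) ≤ 1/2) (R : Rect) {δ : ℕ → ℝ} (hδ : ∀ i, 0 < δ i)
    (hlim : Tendsto δ atTop (𝓝 0))
    {μ : ProbabilityMeasure X} (hμ : Tendsto (fun i => R.law (δ i)) atTop (𝓝 μ)) :
    ∀ᵐ p ∂(μ : Measure X), ∀ᶠ j : ℕ in atTop, p ∉ BadH R ((1/2) ^ j) M (nj j) := by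
  obtain ⟨κs, Ss, δs, -, -, hδs, -, hsh⟩ := R.shape
  have hA0 := R.hA
  have hB0 := R.hB
  have hH0 := R.hH
  have hbc := bc R le_rfl (B := fun _ j => BadH R ((1/2) ^ j) M (nj j))
    (fun _ j => badH_open _ _ _ _) (fun ρ hρ => by
      refine ⟨(R.A + R.B + R.H + 4) ^ 2, 0, by positivity, fun j _ => ?_⟩
      refine ⟨min δs ((1/2) ^ j / 100), lt_min hδs (by positivity), fun d hd hd' => ?_⟩
      have hd1 : d ≤ δs := hd'.trans (min_le_left _ _)
      have hd2 : d ≤ (1/2) ^ j / 100 := hd'.trans (min_le_right _ _)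
      refine (badH_pr hC2 hA hM3 hM hd (pow_le_one₀ (by norm_num) (by norm_num))
        (by linarith) (hsh d hd hd1).ok (by unfold nj; omega)).trans ?_
      rw [div_pow, div_mul_eq_mul_div, mul_div_assoc]
      refine mul_le_mul_of_nonneg_left ?_ (by positivity)
      rw [div_le_iff₀ (by positivity)]
      have h1 : ((1:ℝ)/2) ^ (nj j ^ 2) ≤ (1/2) ^ (9 * j) :=
        pow_le_pow_of_le_one (by norm_num) (by norm_num) (nj_sq j)
      refine h1.trans ?_
      have e1 : ((1:ℝ)/2) ^ (9 * j) = (1/128) ^ j * (((1:ℝ)/2) ^ j) ^ 2 := by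
        rw [← pow_mul, mul_comm j 2, pow_mul, pow_mul, ← mul_pow]
        norm_num
      rw [e1]
      refine mul_le_mul_of_nonneg_right ?_ (by positivity)
      have e2 : Real.exp (-2 * (1 * (j:ℝ))) = (Real.exp (-2)) ^ j := by
        rw [← Real.exp_nat_mul]; congr 1; ring
      rw [e2]
      refine pow_le_pow_left₀ (by norm_num) ?_ _
      have h5 : Real.exp 2 ≤ 128 := by
        have h5 : Real.exp 2 = Real.exp 1 ^ 2 := by rw [← Real.exp_nat_mul]; norm_num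
        rw [h5]
        have := Real.exp_one_lt_d9
        have h6 := Real.exp_pos 1
        nlinarith
      rw [Real.exp_neg, one_div]
      exact inv_anti₀ (Real.exp_pos _) h5) hδ hlim hμ
  filter_upwards [hbc] with p hp
  exact hp 0

end Pool.Agent.N944.AD
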