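import Pool.Agent.N944.AD.Lim
import Pool.Agent.N944.AD.UpAe

/-!
Dense pieces and holes of the critical interface: all scales.
-/

set_option autoImplicit false
set_option linter.unusedVariables false

namespace Pool.Agent.N944.AD

open H984N Pool.Agent.Y995.FS MeasureTheory Filter Topology

/-- `r (log (1/r)) ^ (-1/2)` -/
noncomputable def gap (r : ℝ) : ℝ := r / Real.sqrt (Real.log (1 / r))

theorem scale {τ : ℕ → ℝ} {B : ℝ} (h0 : ∀ j, 0 < τ j) (hlim : Tendsto τ atTop (𝓝 0))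
    (hB : ∀ j, τ j ≤ B * τ (j + 1)) (j0 : ℕ) :
    ∀ᶠ h : ℝ in 𝓝[>] 0, ∃ j : ℕ, j0 ≤ j ∧ τ j ≤ h ∧ h ≤ B * τ j := by
  classical
  filter_upwards [self_mem_nhdsWithin, (eventually_lt_nhds (h0 j0)).filter_mono
    nhdsWithin_le_nhds] with h hh0 hh1
  have hh0 : 0 < h := hh0
  have hex : ∃ j : ℕ, j0 ≤ j ∧ τ j ≤ h := by
    obtain ⟨j, hj⟩ := ((hlim.eventually (gt_mem_nhds hh0)).and (eventually_ge_atTop j0)).exists
    exact ⟨j, hj.2, hj.1.le⟩
  obtain ⟨j, hj⟩ : ∃ j, j = Nat.find hex := ⟨_, rfl⟩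
  have hj1 := Nat.find_spec hex
  rw [← hj] at hj1
  have hne : j ≠ j0 := by
    rintro h1
    rw [h1] at hj1
    linarith [hj1.2]
  obtain ⟨i, hi⟩ : ∃ i, j = i + 1 := ⟨j - 1, by omega⟩
  have hj2 : h < τ i := by
    have hmin := Nat.find_min hex (m := i) (by omega)
    push Not at hmin
    exact hmin (by omega)
  refine ⟨j, hj1.1, hj1.2, ?_⟩
  rw [hi]
  exact hj2.le.trans (hB i)

theorem exp_lim {K : ℝ} (hK : 1 ≤ K) :
    Tendsto (fun j : ℕ => Real.exp (-2 * (K * j))) atTop (𝓝 0) := by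
  have h2 : Tendsto (fun j : ℕ => (Real.exp (-2 * K)) ^ j) atTop (𝓝 0) :=
    tendsto_pow_atTop_nhds_zero_of_lt_one (Real.exp_pos _).le (by
      rw [Real.exp_lt_one_iff]; linarith)
  refine h2.congr fun j => ?_
  rw [← Real.exp_nat_mul]
  congr 1
  ring

/-- the cell which contains a point -/
theorem cell_ex {x0 r x : ℝ} (hr : 0 < r) {k : ℕ} (hk : 0 < k) (h1 : x0 ≤ x)
    (h2 : x ≤ x0 + r * k) : ∃ p : Fin k, x0 + r * (p : ℕ) ≤ x ∧ x ≤ x0 + r * ((p : ℕ) + 1) := by
  obtain ⟨y, hy⟩ : ∃ y, y = (x - x0) / r := ⟨_, rfl⟩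
  have hy0 : 0 ≤ y := by rw [hy]; exact div_nonneg (by linarith) hr.le
  have hyx : r * y = x - x0 := by rw [hy]; field_simp
  have hyk : y ≤ k := by
    rw [hy, div_le_iff₀ hr]; linarith
  obtain ⟨p, hp⟩ : ∃ p : ℕ, p = min ⌊y⌋₊ (k - 1) := ⟨_, rfl⟩
  refine ⟨⟨p, by omega⟩, ?_, ?_⟩
  · have h3 : (p : ℝ) ≤ y := by
      have : (p : ℝ) ≤ ((⌊y⌋₊ : ℕ) : ℝ) := by exact_mod_cast (by omega : p ≤ ⌊y⌋₊)
      exact this.trans (Nat.floor_le hy0)
    have := mul_le_mul_of_nonneg_left h3 hr.le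
    simp only
    linarith
  · have h3 : y ≤ (p : ℝ) + 1 := by
      rcases min_choice ⌊y⌋₊ (k - 1) with h | h
      · rw [hp, h]
        exact (Nat.lt_floor_add_one y).le
      · rw [hp, h, Nat.cast_sub hk]
        push_cast
        linarith
    have := mul_le_mul_of_nonneg_left h3 hr.le
    simp only
    linarith

/-- the constant of the dense pieces -/
noncomputable def Cd (K : ℝ) : ℝ := 80 * Real.exp (2 * K) * Real.sqrt (28 * K)

theorem Cd_pos {K : ℝ} (hK : 1 ≤ K) : 0 < Cd K := by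
  unfold Cd
  have : 0 < Real.sqrt (28 * K) := Real.sqrt_pos.2 (by linarith)
  positivity

/-- dense pieces at all scales -/
theorem dense_all {K : ℝ} (hK : 1 ≤ K) {f : C(unitInterval, ℂ)} {D : ℝ} {s t : unitInterval}
    (h : ∀ᶠ j : ℕ in atTop, DG f D (rj K j) (kj j) s t) :
    ∀ᶠ ρ : ℝ in 𝓝[>] 0, ∃ z : ℂ, ∀ y ∈ Metric.closedBall z ρ, ∃ u ∈ Set.Icc s t,
      dist (f u) y ≤ Cd K * gap ρ := by
  obtain ⟨j0, hj0⟩ := eventually_atTop.1 h
  have hE := Real.exp_pos (2 * K)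
  have hsc := scale (τ := fun j : ℕ => Real.exp (-2 * (K * (j + 1 : ℕ))) / 12)
    (B := Real.exp (2 * K)) (fun j => by positivity)
    (by
      have h1 := ((tendsto_add_atTop_iff_nat 1).2 (exp_lim hK)).div_const 12
      rw [zero_div] at h1
      exact h1)
    (fun j => by
      rw [← mul_div_assoc, ← Real.exp_add]
      refine le_of_eq ?_
      congr 2
      push_cast
      ring) (max j0 400)
  filter_upwards [hsc, self_mem_nhdsWithin, (eventually_lt_nhds
      (Real.exp_pos (-1))).filter_mono nhdsWithin_le_nhds] with ρ h1 h2 h3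
  have hρ0 : 0 < ρ := h2
  obtain ⟨j, g1, g2, g3⟩ := h1
  obtain ⟨z0, -, hz⟩ := hj0 j ((le_max_left _ _).trans g1)
  have hj400 : 400 ≤ j := (le_max_right _ _).trans g1
  obtain ⟨w, hw⟩ : ∃ w : ℝ, w = Real.exp (-2 * (K * j)) := ⟨_, rfl⟩
  have hw0 : 0 < w := by rw [hw]; exact Real.exp_pos _
  have e1 : Real.exp (2 * K) * (Real.exp (-2 * (K * (j + 1 : ℕ))) / 12) = w / 12 := by
    rw [← mul_div_assoc, ← Real.exp_add, hw]
    congr 2
    push_cast
    ring
  rw [e1] at g3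
  have g4 : w ≤ 12 * (Real.exp (2 * K) * ρ) := by
    have := mul_le_mul_of_nonneg_left g2 hE.le
    rw [e1] at this
    linarith
  obtain ⟨kk, hkk⟩ : ∃ kk, kk = Nat.sqrt j := ⟨_, rfl⟩
  have hkk20 : 20 ≤ kk := by
    rw [hkk, Nat.le_sqrt]; omega
  have hkR : (20 : ℝ) ≤ kk := by exact_mod_cast hkk20
  have hk0 : (0:ℝ) < kk := by linarith
  obtain ⟨r, hr⟩ : ∃ r : ℝ, r = 10 / 3 * w / kk := ⟨_, rfl⟩
  have er : rj K j = r := by unfold rj; rw [hr, hw, hkk]
  obtain ⟨k, hk⟩ : ∃ k : ℕ, k = kj j := ⟨_, rfl⟩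
  have ek : k = kk / 10 := by rw [hk]; unfold kj; rw [hkk]
  rw [er, ← hk] at hz
  have hr0 : 0 < r := by rw [hr]; positivity
  have hrk : r * kk = 10 / 3 * w := by rw [hr]; field_simp
  have hkpos : 0 < k := by omega
  have hk20 : (kk : ℝ) ≤ 20 * k := by
    have : kk ≤ 20 * k := by omega
    exact_mod_cast this
  have hL : 2 * ρ ≤ r * k := by
    have h5 : r * kk ≤ r * (20 * k) := mul_le_mul_of_nonneg_left hk20 hr0.le
    linarith
  have hlog1 : 1 ≤ Real.log (1 / ρ) := by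
    rw [one_div, Real.log_inv]
    have := Real.log_le_log hρ0 h3.le
    rw [Real.log_exp] at this
    linarith
  have hgap : 2 * r ≤ Cd K * gap ρ := by
    have hj1 : (1:ℝ) ≤ j := by exact_mod_cast (by omega : 1 ≤ j)
    have hlog2 : Real.log (1 / ρ) ≤ 7 * K * j := by
      have h5 : 1 / ρ ≤ 12 * Real.exp (2 * K) / w := by
        rw [div_le_div_iff₀ hρ0 hw0]; linarith
      have h6 := Real.log_le_log (by positivity) h5
      rw [Real.log_div (by positivity) hw0.ne', Real.log_mul (by norm_num) (by positivity),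
        Real.log_exp, hw, Real.log_exp] at h6
      have h7 : Real.log 12 ≤ 2.5 := by
        have h8 : Real.log 12 ≤ Real.log 16 := Real.log_le_log (by norm_num) (by norm_num)
        have h9 : Real.log 16 = 4 * Real.log 2 := by
          rw [show (16:ℝ) = 2 ^ 4 by norm_num, Real.log_pow]; norm_num
        have h10 := Real.log_two_lt_d9
        have h11 : Real.log 12 = Real.log 3 + 2 * Real.log 2 := by
          rw [show (12:ℝ) = 3 * 2 ^ 2 by norm_num, Real.log_mul (by norm_num) (by norm_num),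
            Real.log_pow]; norm_num
        have h12 : Real.log 3 ≤ 1.1 := by
          rw [Real.log_le_iff_le_exp (by norm_num)]
          have h13 : Real.exp 1.1 = Real.exp 1 * Real.exp 0.1 := by
            rw [← Real.exp_add]; norm_num
          rw [h13]
          have h14 := Real.exp_one_gt_d9
          have h15 := Real.add_one_le_exp (0.1 : ℝ)
          have h16 : (1.105 : ℝ) ≤ Real.exp 0.1 := by
            have := Real.quadratic_le_exp_of_nonneg (show (0:ℝ) ≤ 0.1 by norm_num)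
            norm_num at this ⊢
            linarith
          nlinarith
        linarith
      nlinarith
    have hjk : (j : ℝ) ≤ 4 * (kk : ℝ) ^ 2 := by
      have h5 : j < (kk + 1) * (kk + 1) := by rw [hkk]; exact Nat.lt_succ_sqrt j
      have h6 : j ≤ 4 * (kk * kk) := by nlinarith
      rw [sq]; exact_mod_cast h6
    have hlog3 : Real.log (1 / ρ) ≤ 28 * K * (kk : ℝ) ^ 2 := by
      have : 7 * K * j ≤ 7 * K * (4 * (kk : ℝ) ^ 2) :=
        mul_le_mul_of_nonneg_left hjk (by linarith)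
      linarith
    have hsq : Real.sqrt (Real.log (1 / ρ)) ≤ Real.sqrt (28 * K) * kk := by
      have h5 := Real.sqrt_le_sqrt hlog3
      rwa [Real.sqrt_mul (by linarith), Real.sqrt_sq hk0.le] at h5
    have hs0 : 0 < Real.sqrt (Real.log (1 / ρ)) := Real.sqrt_pos.2 (by linarith)
    unfold gap Cd
    rw [← mul_div_assoc, le_div_iff₀ hs0]
    calc 2 * r * Real.sqrt (Real.log (1 / ρ)) ≤ 2 * r * (Real.sqrt (28 * K) * kk) :=
          mul_le_mul_of_nonneg_left hsq (by linarith)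
      _ = 20 / 3 * w * Real.sqrt (28 * K) := by
          have : 2 * r * (Real.sqrt (28 * K) * kk) = 2 * (r * kk) * Real.sqrt (28 * K) := by ring
          rw [this, hrk]; ring
      _ ≤ 20 / 3 * (12 * (Real.exp (2 * K) * ρ)) * Real.sqrt (28 * K) :=
          mul_le_mul_of_nonneg_right (by linarith) (Real.sqrt_nonneg _)
      _ = 80 * Real.exp (2 * K) * Real.sqrt (28 * K) * ρ := by ring
  refine ⟨⟨z0.re + r * k / 2, z0.im + r * k / 2⟩, fun y hy => ?_⟩
  rw [Metric.mem_closedBall] at hy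
  have hre := abs_le.1 (ML.le_dist_re y ⟨z0.re + r * k / 2, z0.im + r * k / 2⟩)
  have him := abs_le.1 (ML.le_dist_im y ⟨z0.re + r * k / 2, z0.im + r * k / 2⟩)
  simp only at hre him
  obtain ⟨a, ha1, ha2⟩ := cell_ex (x0 := z0.re) (x := y.re) hr0 hkpos (by linarith) (by linarith)
  obtain ⟨b, hb1, hb2⟩ := cell_ex (x0 := z0.im) (x := y.im) hr0 hkpos (by linarith) (by linarith)
  obtain ⟨u, hu, ⟨c1, c2⟩, c3, c4⟩ := hz (a, b)
  refine ⟨u, hu, le_trans ?_ hgap⟩
  rw [dist_eq_norm]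
  refine (Complex.norm_le_abs_re_add_abs_im _).trans ?_
  rw [Complex.sub_re, Complex.sub_im]
  simp only at c1 c2 c3 c4
  have b1 : |(f u).re - y.re| ≤ r := by rw [abs_le]; constructor <;> linarith
  have b2 : |(f u).im - y.im| ≤ r := by rw [abs_le]; constructor <;> linarith
  linarith

end Pool.Agent.N944.AD
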