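import Pool.Agent.N944.AD.Hole
import Pool.Agent.N944.AD.Assouad
import Pool.Agent.R965.HT.Top
import Pool.Agent.H984R4.NP.Final

/-!
Dense pieces, holes and Assouad dimension of the scaling limits of the critical interface.
-/

set_option autoImplicit false
set_option linter.unusedVariables false

namespace Pool.Agent.N944.AD

open H974 Finset H342P H984P H984N Pool.Agent.Y995.FS MeasureTheory Filter Topology

/-- the Assouad dimension -/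
noncomputable def dimA (F : Set ℂ) : ℝ := sInf (AS F)

theorem dimA_eq {F : Set ℂ} {c : ℝ} (hc : 0 < c)
    (h : ∀ᶠ ρ : ℝ in 𝓝[>] 0, ∃ z : ℂ, ∀ y ∈ Metric.closedBall z ρ, ∃ x ∈ F,
      dist x y ≤ c * gap ρ) : dimA F = 2 := by
  refine le_antisymm (csInf_le ⟨0, fun α hα => hα.1⟩ (two_mem F)) ?_
  exact le_csInf ⟨2, two_mem F⟩ fun α hα => two_le hc h hα

theorem exists_M (C2 : ℝ) (hC2 : 0 < C2) : ∃ M : ℕ, 3 ≤ M ∧
    C2 * (8 / (M : ℝ)) ^ (1/4 : ℝ) ≤ 1/2 := by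
  obtain ⟨M0, hM0⟩ := exists_nat_ge (8 * (2 * C2) ^ 4)
  refine ⟨M0 + 3, by omega, ?_⟩
  obtain ⟨M, hM⟩ : ∃ M : ℝ, M = ((M0 + 3 : ℕ) : ℝ) := ⟨_, rfl⟩
  rw [← hM]
  have h1 : 8 * (2 * C2) ^ 4 ≤ M := by rw [hM]; push_cast; linarith
  have h0 : 0 < M := by rw [hM]; positivity
  have h2 : 8 / M ≤ (1 / (2 * C2)) ^ 4 := by
    rw [div_pow, one_pow, div_le_div_iff₀ h0 (by positivity)]
    linarith
  have h3 : (8 / M) ^ (1/4 : ℝ) ≤ 1 / (2 * C2) := by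
    have h4 := Real.rpow_le_rpow (by positivity) h2 (show (0:ℝ) ≤ 1/4 by norm_num)
    rw [← Real.rpow_natCast, ← Real.rpow_mul (by positivity)] at h4
    norm_num at h4 ⊢
    exact h4
  calc C2 * (8 / M) ^ (1/4 : ℝ) ≤ C2 * (1 / (2 * C2)) := mul_le_mul_of_nonneg_left h3 hC2.le
    _ = 1/2 := by field_simp

/-- Dense pieces on every subarc. -/
theorem dense_ae {c C C2 : ℝ} (hc : 0 < c) (hC : 0 < C) (hL : LowA c (1/4))
    (hU : TwoUp C (1/4)) (hC2 : 0 < C2) (hA : AnnUp C2) :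
    ∃ K : ℝ, 1 ≤ K ∧ ∀ R : Rect, ∀ δ : ℕ → ℝ, (∀ i, 0 < δ i) → Tendsto δ atTop (𝓝 0) →
      ∀ μ : ProbabilityMeasure X, Tendsto (fun i => R.law (δ i)) atTop (𝓝 μ) →
      ∀ᵐ p ∂(μ : Measure X), ∀ s t : unitInterval, s < t →
        ∀ᶠ ρ : ℝ in 𝓝[>] 0, ∃ z : ℂ, ∀ y ∈ Metric.closedBall z ρ, ∃ u ∈ Set.Icc s t,
          dist (p.1 u) y ≤ Cd K * gap ρ := by
  obtain ⟨K3, hK3, hlat⟩ := dense_lat
  refine ⟨K3, hK3, fun R δ hδ hlim μ hμ => ?_⟩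
  obtain ⟨-, -, h3⟩ := final_of hc hC hL hU hC2 hA R
  have hbc := bc R hK3 (B := fun ρ j => BadD R ρ (rj K3 j) (kj j))
    (fun ρ j => badD_open _ _ _ _) (fun ρ hρ => by
      obtain ⟨C1, hC1, h1⟩ := hlat R ρ hρ
      obtain ⟨j1, hj1⟩ : ∃ j1 : ℕ, ∀ j : ℕ, j1 ≤ j → 1000 * Real.exp (-2 * (K3 * j)) ≤ ρ := by
        have h2 := (exp_lim hK3).const_mul 1000
        rw [mul_zero] at h2
        exact eventually_atTop.1 (h2.eventually (ge_mem_nhds hρ))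
      exact ⟨C1, max j1 400, hC1, fun j hj => h1 j (le_trans (le_max_right _ _) hj)
        (hj1 j (le_trans (le_max_left _ _) hj))⟩) hδ hlim hμ
  filter_upwards [h3 δ hδ hlim μ hμ, hbc] with p hp hb
  obtain ⟨hp0, -, -, hcl, -, hdim⟩ := hp
  intro s t hst
  obtain ⟨s', t', i, g1, g2, g3, g4, g5⟩ := sub_arc hcl hdim hst
  have h5 : ∀ᶠ j : ℕ in atTop, DG p.1 (rad R) (rj K3 j) (kj j) s' t' := by
    filter_upwards [hb i] with j hj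
    by_contra hcon
    exact hj ⟨s', t', g2, g4, g5, hcon⟩
  filter_upwards [dense_all hK3 h5] with ρ hρ
  obtain ⟨z, hz⟩ := hρ
  refine ⟨z, fun y hy => ?_⟩
  obtain ⟨u, hu, hu2⟩ := hz y hy
  exact ⟨u, ⟨g1.trans hu.1, hu.2.trans g3⟩, hu2⟩

/-- Dense pieces, holes and Assouad dimension of the scaling limits. -/
theorem top : ∃ c C : ℝ, 0 < c ∧ 0 < C ∧ ∀ R : Rect,
    (∀ δ : ℕ → ℝ, (∀ i, 0 < δ i) → Tendsto δ atTop (𝓝 0) →
      ∃ φ : ℕ → ℕ, StrictMono φ ∧ ∃ μ : ProbabilityMeasure X,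
        Tendsto (fun i => R.law (δ (φ i))) atTop (𝓝 μ)) ∧
    (∀ δ : ℕ → ℝ, (∀ i, 0 < δ i) → Tendsto δ atTop (𝓝 0) → ∀ μ : ProbabilityMeasure X,
      Tendsto (fun i => R.law (δ i)) atTop (𝓝 μ) →
      ∀ᵐ p ∂(μ : Measure X),
        (∀ᶠ r : ℝ in 𝓝[>] 0, ∀ z : ℂ, ∃ y : ℂ,
          Metric.closedBall y (c * gap r) ⊆ Metric.closedBall z r ∧
            ∀ u, p.1 u ∉ Metric.closedBall y (c * gap r)) ∧
        ∀ s t : unitInterval, s < t →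
          (∀ᶠ r : ℝ in 𝓝[>] 0, ∃ z : ℂ, ∀ y ∈ Metric.closedBall z r, ∃ u ∈ Set.Icc s t,
            dist (p.1 u) y ≤ C * gap r) ∧
          dimA (p.1 '' Set.Icc s t) = 2) := by
  obtain ⟨⟨c, hc, hL⟩, ⟨C, hC, hU⟩, C2, hC2, hA⟩ := Pool.Agent.R965.HT.inputs
  obtain ⟨M, hM3, hM⟩ := exists_M C2 hC2
  obtain ⟨K, hK, hdense⟩ := dense_ae hc hC hL hU hC2 hA
  refine ⟨ch M, Cd K, ch_pos (by omega), Cd_pos hK, fun R => ?_⟩
  obtain ⟨-, h2, h3⟩ := final_of hc hC hL hU hC2 hA R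
  refine ⟨h2, fun δ hδ hlim μ hμ => ?_⟩
  filter_upwards [h3 δ hδ hlim μ hμ, hdense R δ hδ hlim μ hμ,
    hole_ae hC2 hA hM3 hM R hδ hlim hμ] with p hp hd hh
  obtain ⟨hp0, -, -, hcl, -, hdim⟩ := hp
  refine ⟨hole_all hM3 hcl hh, fun s t hst => ⟨hd s t hst, ?_⟩⟩
  refine dimA_eq (Cd_pos hK) ?_
  filter_upwards [hd s t hst] with r hr
  obtain ⟨z, hz⟩ := hr
  refine ⟨z, fun y hy => ?_⟩
  obtain ⟨u, hu, hu2⟩ := hz y hy
  exact ⟨p.1 u, ⟨u, hu, rfl⟩, hu2⟩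

end Pool.Agent.N944.AD
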