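import Pool.Agent.N944.AD.Det

/-!
Dense pieces of the critical interface: probability of the trial.
-/

set_option autoImplicit false
set_option linter.unusedVariables false

namespace Pool.Agent.N944.AD

open H974 hiding RB
open Finset H342P H984P H984N Pool.Agent.Y995.FS TH992.T

/-- the columns of the comb are seen -/
theorem comb_sn {F : Finset Edg} {G : Set Edg} {A y0 X Y : ℤ} {T m b I : ℕ} (hb : 1 ≤ b)
    (hbm : 12 * b ≤ m) (hH : HgtC m b I)
    (hFG : ∀ e ∈ RB X Y m, (e ∈ F ↔ e ∈ G))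
    (hL : BaseL A y0 X Y T m m G) (hU : BaseU A y0 X Y T m m G) (hA : CA X Y m b I F)
    (hB : CB X Y m b I F) : Qd m b I A y0 X Y T G := by
  have hb' : (1 : ℤ) ≤ b := by exact_mod_cast hb
  have hbm' : 12 * (b : ℤ) ≤ m := by exact_mod_cast hbm
  have hm : 1 ≤ m := by omega
  intro i hi x hx1 hx2
  obtain ⟨hy1, hy2⟩ := yt_bd (Y := Y) hH hi
  obtain ⟨y, hy⟩ : ∃ y, y = yt Y m b i := ⟨_, rfl⟩
  rw [← hy] at hy1 hy2 ⊢
  -- the open tooth
  have k1 : ∃ z, y ≤ z ∧ z ≤ y + 4 * b ∧ SnV A y0 X Y T m G (x, z) := by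
    obtain ⟨V, hV⟩ : ∃ V : Finset Edg, V = RE (X + 20 * m) (X + 24 * m) (Y - 12 * m) (Y + 3 * m) ∪
      RE (X + 20 * m) (X + 38 * m) (Y - 3 * m) (Y + 3 * m) := ⟨_, rfl⟩
    obtain ⟨y1, y2, hy1', hy2', hc⟩ := hA.1 i hi
    obtain ⟨x1, x2, hx1', hx2', hs⟩ := hA.2
    rw [← hy] at hy1' hy2' hc
    obtain ⟨z1, z2, hz1, hz2, hc1, hc2⟩ := sub_LR (G := (↑F : Set Edg) ∩
      ↑(LRE (X + 20 * m) (X + 38 * m) y (y + 4 * b))) (a := X + 20 * m) (b := x) (c := y)
      (d := y + 4 * b) (by omega)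
      (by rintro u v ⟨-, h⟩ _ _; rw [mem_coe, mem_LRE_true] at h; omega)
      (by rintro u v ⟨-, h⟩ _ _; rw [mem_coe, mem_LRE_false] at h; omega) hc (by simp)
      (by simp only; omega)
    have e2 : Reach ((↑F : Set Edg) ∩ ↑V) (x1, Y - 12 * m) (X + 20 * m, y1) := by
      refine meet_gen (p := X + 20 * m) (q := X + 24 * m) (c := y) (d := y + 4 * b)
        (by omega) (by omega)
        (V := TBE (X + 20 * m) (X + 24 * m) (Y - 12 * m) (Y + 3 * m))
        (Hh := LRE (X + 20 * m) (X + 38 * m) y (y + 4 * b)) ?_ ?_ ?_ ?_ ?_ ?_ ?_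
        hs (by simp only; omega) (by simp only; omega) hc (by simp only; omega)
        (by simp only; omega)
      · rintro ⟨x, y, _ | _⟩ h
        · simp only [hV, mem_union, mem_RE_false, mem_TBE_false] at h ⊢; omega
        · simp only [hV, mem_union, mem_RE_true, mem_TBE_true] at h ⊢; omega
      · rintro ⟨x, y, _ | _⟩ h
        · simp only [hV, mem_union, mem_RE_false, mem_LRE_false] at h ⊢; omega
        · simp only [hV, mem_union, mem_RE_true, mem_LRE_true] at h ⊢; omega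
      · rintro ⟨x, y, _ | _⟩ h
        · simp only [hV, mem_union, mem_RE_false] at h ⊢; omega
        · simp only [hV, mem_union, mem_RE_true] at h ⊢; omega
      · intro x y h; simp only [mem_TBE_false] at h; omega
      · intro x y h; simp only [mem_TBE_true] at h; omega
      · intro x y h; simp only [mem_LRE_true] at h; omega
      · intro x y h; simp only [mem_LRE_false] at h; omega
    have hLV : LRE (X + 20 * m) (X + 38 * m) y (y + 4 * b) ⊆ V := by
      rintro ⟨x, y, _ | _⟩ h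
      · simp only [hV, mem_union, mem_RE_false, mem_LRE_false] at h ⊢; omega
      · simp only [hV, mem_union, mem_RE_true, mem_LRE_true] at h ⊢; omega
    have e3 : Reach ((↑F : Set Edg) ∩ ↑V) (X + 20 * m, y1) (x, z2) := by
      refine (hc2.trans (hc1.mono Set.inter_subset_left)).mono ?_
      rintro e ⟨h0, h⟩
      exact ⟨h0, Finset.mem_coe.2 (hLV (Finset.mem_coe.1 h))⟩
    have hVR : V ⊆ RB X Y m := by
      rintro ⟨x, y, _ | _⟩ h
      · simp only [hV, RB, mem_union, mem_RE_false] at h ⊢; omega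
      · simp only [hV, RB, mem_union, mem_RE_true] at h ⊢; omega
    have e4 : Reach (G ∩ ↑V) (x1, Y - 12 * m) (x, z2) :=
      (e2.trans e3).mono (by
        rintro e ⟨h0, h⟩
        exact ⟨(hFG e (hVR (Finset.mem_coe.1 h))).1 (Finset.mem_coe.1 h0), h⟩)
    refine ⟨z2, hz2.1, hz2.2, ?_⟩
    refine attL hm le_rfl hL (V := V) (p := X + 20 * m) (q := X + 24 * m)
      (by omega) (by omega) (by omega) (hVR.trans RB_Bl) ?_ ?_ (w := (x1, Y - 12 * m))
      (v := (x, z2)) (by simp only; omega) (by simp only; omega) e4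
    · intro x y h _ _; simp only [hV, mem_union, mem_RE_false] at h; omega
    · intro x y h _ _; simp only [hV, mem_union, mem_RE_true] at h; omega
  -- the dual tooth
  have k2 : ∃ z, y + 16 * b ≤ z ∧ z ≤ y + 20 * b ∧ SnF A y0 X Y T m G (x, z) := by
    obtain ⟨V, hV⟩ : ∃ V : Finset Edg, V = RE (X + 40 * m) (X + 44 * m) (Y - 3 * m) (Y + 12 * m) ∪
      RE (X + 26 * m) (X + 44 * m) (Y - 3 * m) (Y + 3 * m) := ⟨_, rfl⟩
    obtain ⟨y1, y2, hy1', hy2', hc⟩ := hB.1 i hi
    obtain ⟨x1, x2, hx1', hx2', hs⟩ := hB.2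
    rw [← hy] at hy1' hy2' hc
    obtain ⟨F', hF'⟩ : ∃ F' : Finset Edg, F' = dmp (RB X Y m \ F) := ⟨_, rfl⟩
    rw [← hF'] at hc hs
    obtain ⟨z1, z2, hz1, hz2, hc1, hc2⟩ := sub_LR (G := (↑F' : Set Edg) ∩
      ↑(LRE (X + 26 * m) (X + 44 * m) (y + 16 * b) (y + 16 * b + 4 * b))) (a := X + 26 * m)
      (b := x) (c := y + 16 * b) (d := y + 16 * b + 4 * b) (by omega)
      (by rintro u v ⟨-, h⟩ _ _; rw [mem_coe, mem_LRE_true] at h; omega)
      (by rintro u v ⟨-, h⟩ _ _; rw [mem_coe, mem_LRE_false] at h; omega) hc (by simp)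
      (by simp only; omega)
    have e2 : Reach ((↑F' : Set Edg) ∩ ↑V) (x1, Y - 3 * m) (X + 26 * m, y1) := by
      refine meet_gen (p := X + 40 * m) (q := X + 44 * m) (c := y + 16 * b)
        (d := y + 16 * b + 4 * b) (by omega) (by omega)
        (V := TBE (X + 40 * m) (X + 44 * m) (Y - 3 * m) (Y + 12 * m))
        (Hh := LRE (X + 26 * m) (X + 44 * m) (y + 16 * b) (y + 16 * b + 4 * b))
        ?_ ?_ ?_ ?_ ?_ ?_ ?_
        hs (by simp only; omega) (by simp only; omega) hc (by simp only; omega)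
        (by simp only; omega)
      · rintro ⟨x, y, _ | _⟩ h
        · simp only [hV, mem_union, mem_RE_false, mem_TBE_false] at h ⊢; omega
        · simp only [hV, mem_union, mem_RE_true, mem_TBE_true] at h ⊢; omega
      · rintro ⟨x, y, _ | _⟩ h
        · simp only [hV, mem_union, mem_RE_false, mem_LRE_false] at h ⊢; omega
        · simp only [hV, mem_union, mem_RE_true, mem_LRE_true] at h ⊢; omega
      · rintro ⟨x, y, _ | _⟩ h
        · simp only [hV, mem_union, mem_RE_false] at h ⊢; omega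
        · simp only [hV, mem_union, mem_RE_true] at h ⊢; omega
      · intro x y h; simp only [mem_TBE_false] at h; omega
      · intro x y h; simp only [mem_TBE_true] at h; omega
      · intro x y h; simp only [mem_LRE_true] at h; omega
      · intro x y h; simp only [mem_LRE_false] at h; omega
    have hLV : LRE (X + 26 * m) (X + 44 * m) (y + 16 * b) (y + 16 * b + 4 * b) ⊆ V := by
      rintro ⟨x, y, _ | _⟩ h
      · simp only [hV, mem_union, mem_RE_false, mem_LRE_false] at h ⊢; omega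
      · simp only [hV, mem_union, mem_RE_true, mem_LRE_true] at h ⊢; omega
    have e0 : Reach ((↑F' : Set Edg) ∩ ↑V) (X + 26 * m, y1) (x, z2) := by
      refine (hc2.trans (hc1.mono Set.inter_subset_left)).mono ?_
      rintro e ⟨h0, h⟩
      exact ⟨h0, Finset.mem_coe.2 (hLV (Finset.mem_coe.1 h))⟩
    have e3 : Reach ((↑F' : Set Edg) ∩ ↑V) (x1, Y - 3 * m) (x2, Y + 12 * m) := hs.mono (by
      rintro ⟨x, y, _ | _⟩ ⟨h0, h⟩
      · refine ⟨h0, ?_⟩
        simp only [hV, mem_coe, mem_union, mem_RE_false, mem_TBE_false] at h ⊢; omega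
      · refine ⟨h0, ?_⟩
        simp only [hV, mem_coe, mem_union, mem_RE_true, mem_TBE_true] at h ⊢; omega)
    have e4 : DReach (dE V \ G) (x, z2) (x2, Y + 12 * m) := by
      rw [← reach_dl]
      refine ((e0.symm.trans e2.symm).trans e3).mono ?_
      rintro e ⟨h1, h2⟩
      rw [hF', mem_coe, mem_dmp, mem_sdiff] at h1
      refine ⟨dl.symm e, ⟨?_, ?_⟩, by simp⟩
      · simp only [dE, Set.mem_ofPred_eq, Equiv.apply_symm_apply]
        exact Finset.mem_coe.1 h2
      · intro h3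
        exact h1.2 ((hFG _ h1.1).2 h3)
    refine ⟨z2, hz2.1, by omega, ?_⟩
    refine attU hm le_rfl hU (V := V) (p := X + 40 * m) (q := X + 44 * m)
      (by omega) (by omega) (by omega) ?_ ?_ ?_ (v := (x, z2)) (g := (x2, Y + 12 * m))
      (by simp only; omega) (by simp only; omega) e4
    · rintro ⟨x, y, _ | _⟩ h
      · simp only [hV, mem_union, mem_RE_false] at h ⊢; omega
      · simp only [hV, mem_union, mem_RE_true] at h ⊢; omega
    · intro x y h _ _; simp only [hV, mem_union, mem_RE_false] at h; omega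
    · intro x y h _ _; simp only [hV, mem_union, mem_RE_true] at h; omega
  obtain ⟨z1, h1, h2, h3⟩ := k1
  obtain ⟨z2, h4, h5, h6⟩ := k2
  exact ⟨z1, z2, h1, by omega, h5, h3, h6⟩

/-- the event of the comb, without counting -/
def NK (X Y : ℤ) (m b I : ℕ) (F : Finset Edg) : Prop := CA X Y m b I F ∧ CB X Y m b I F

theorem NK_mono {X Y : ℤ} {m b I : ℕ} {F G : Finset Edg}
    (h1 : ∀ e ∈ EC1 X Y m b I, e ∈ F → e ∈ G) (h2 : ∀ e ∈ EC2 X Y m b I, e ∈ G → e ∈ F)
    (h : NK X Y m b I F) : NK X Y m b I G :=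
  ⟨CA_mono' h1 h.1, CB_mono' h2 h.2⟩

theorem pr_NK {m b kk I : ℕ} (hb : 1 ≤ b) (hbm : b * kk ≤ m) (hm : m ≤ 2 * b * kk) (hkk : 20 ≤ kk)
    (hI : I = kk / 10) (X Y : ℤ) :
    q0 ^ (2 * kk ^ 2) ≤ Pr (fun _ => (1/2:ℝ)) (RB X Y m) (NK X Y m b I) := by
  have hm0 : 1 ≤ m := by
    have : 1 ≤ b * kk := Nat.mul_pos (by omega) (by omega)
    omega
  have hbm12 : 12 * b ≤ m := by
    have : 20 * b ≤ b * kk := by rw [Nat.mul_comm 20 b]; exact Nat.mul_le_mul_left _ hkk
    omega
  have hI1 : 10 * I ≤ kk := by omega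
  have hH : HgtC m b I := by
    unfold HgtC
    calc 40 * b * I = 4 * (b * (10 * I)) := by ring
      _ ≤ 4 * (b * kk) := Nat.mul_le_mul_left _ (Nat.mul_le_mul_left _ hI1)
      _ ≤ 4 * m := Nat.mul_le_mul_left _ hbm
  have hn : 18 * m ≤ 32 * b * (2 * kk + 1) := by
    calc 18 * m ≤ 18 * (2 * b * kk) := Nat.mul_le_mul_left _ hm
      _ = 36 * (b * kk) := by ring
      _ ≤ 64 * (b * kk) + 32 * b := by omega
      _ = 32 * b * (2 * kk + 1) := by ring
  have p1 := pr_CA (X := X) (Y := Y) (n := 2 * kk) hb hbm12 hH hn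
    (EC1_sub (X := X) (Y := Y) hb hbm12 hH)
  have p2 := pr_CB (X := X) (Y := Y) (n := 2 * kk) hb hbm12 hH hn
  have hex : (2 * (2 * kk) + 1) * I + 1 ≤ kk ^ 2 := by
    have h1 : 10 * ((2 * (2 * kk) + 1) * I + 1) ≤ 10 * kk ^ 2 := by
      calc 10 * ((2 * (2 * kk) + 1) * I + 1) = (4 * kk + 1) * (10 * I) + 10 := by ring
        _ ≤ (4 * kk + 1) * kk + 10 := Nat.add_le_add_right (Nat.mul_le_mul_left _ hI1) _
        _ ≤ 10 * kk ^ 2 := by nlinarith
    omega
  have hq : q0 ^ (kk ^ 2) ≤ q0 ^ ((2 * (2 * kk) + 1) * I + 1) :=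
    pow_le_pow_of_le_one q0_pos.le q0_le hex
  have e : Pr (fun _ => (1/2:ℝ)) (RB X Y m) (NK X Y m b I) =
      Pr (fun _ => (1/2:ℝ)) (RB X Y m) (CA X Y m b I) *
        Pr (fun _ => (1/2:ℝ)) (RB X Y m) (CB X Y m b I) := comb_indep hb hbm12 hH
  rw [e, two_mul, pow_add]
  exact mul_le_mul (hq.trans p1) (hq.trans p2) (pow_nonneg q0_pos.le _) (Pr_nonneg two_ok _ _)

/-- The probability of the trial. -/
theorem dense_tr : ∃ K3 : ℝ, 1 ≤ K3 ∧ ∀ m b kk : ℕ, 1 ≤ b → b * kk ≤ m → m ≤ 2 * b * kk →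
      20 ≤ kk → ∀ (S : Finset Edg) (A y0 : ℤ),
        TrQ S A y0 m (Qd m b (kk / 10)) (Real.exp (-(K3 * (kk:ℝ) ^ 2))) := by
  classical
  have hlq : Real.log q0 ≤ 0 := Real.log_nonpos q0_pos.le q0_le
  refine ⟨1 - 14 * Real.log q0, by linarith, ?_⟩
  intro m b kk hb hbm hm hkk S A y0 k F0 X Y T hF0 hk hst hA hBl hent hEk hkE
  have hm1 : 1 ≤ m := by
    have : 1 ≤ b * kk := Nat.mul_pos (by omega) (by omega)
    omega
  have hbm12 : 12 * b ≤ m := by
    have : 20 * b ≤ b * kk := by rw [Nat.mul_comm 20 b]; exact Nat.mul_le_mul_left _ hkk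
    omega
  have hmz : (1 : ℤ) ≤ m := by exact_mod_cast hm1
  have hbz : (1 : ℤ) ≤ b := by exact_mod_cast hb
  have hbmz : 12 * (b : ℤ) ≤ m := by exact_mod_cast hbm12
  obtain ⟨I, hI⟩ : ∃ I, I = kk / 10 := ⟨_, rfl⟩
  have hI1 : 10 * I ≤ kk := by omega
  have hH : HgtC m b I := by
    unfold HgtC
    calc 40 * b * I = 4 * (b * (10 * I)) := by ring
      _ ≤ 4 * (b * kk) := Nat.mul_le_mul_left _ (Nat.mul_le_mul_left _ hI1)
      _ ≤ 4 * m := Nat.mul_le_mul_left _ hbm
  have hs := pr_NK hb hbm hm hkk hI X Y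
  rw [← hI]
  -- fresh edges
  have fresh : ∀ e ∈ RB X Y m, e ∉ k := by
    intro e he hek
    have h1 := hkE e hek (RB_Bl he)
    have h2 := (exm_loc hst h1).2.1
    have h3 : X ≤ e.1 := by
      obtain ⟨x, y, _ | _⟩ := e
      · rw [RB, mem_RE_false] at he; exact he.1
      · rw [RB, mem_RE_true] at he; exact he.1
    omega
  have hRB : RB X Y m ⊆ S \ k := by
    intro e he
    rw [mem_sdiff]
    exact ⟨hBl (RB_Bl he), fresh e he⟩
  have e1 : Pr (fun _ => (1/2:ℝ)) (S \ k) (NK X Y m b I) =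
      Pr (fun _ => (1/2:ℝ)) (RB X Y m) (NK X Y m b I) := by
    refine Pr_local hRB fun F _ => ⟨?_, ?_⟩
    · exact NK_mono (fun e he h => mem_inter.2 ⟨h, EC1_sub hb hbm12 hH he⟩)
        (fun e _ h => (mem_inter.1 h).1)
    · exact NK_mono (fun e _ h => (mem_inter.1 h).1)
        (fun e he h => mem_inter.2 ⟨h, EC2_sub hb hbm12 hH he⟩)
  -- rows
  have g1 : ∀ e ∈ EC1 X Y m b I, dl e ∉ HL' X Y m m := by
    intro e he h'
    rw [mem_EC1] at he
    rcases he with ⟨i, hi, he⟩ | he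
    · obtain ⟨h1, h2⟩ := yt_bd (Y := Y) hH hi
      obtain ⟨x, y, _ | _⟩ := e
      · rw [mem_LRE_false] at he
        simp only [HL', dl_f, Finset.mem_union, mem_RE_true] at h'
        omega
      · rw [mem_LRE_true] at he
        simp only [HL', dl_t, Finset.mem_union, mem_RE_false] at h'
        omega
    · obtain ⟨x, y, _ | _⟩ := e
      · rw [mem_TBE_false] at he
        simp only [HL', dl_f, Finset.mem_union, mem_RE_true] at h'
        omega
      · rw [mem_TBE_true] at he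
        simp only [HL', dl_t, Finset.mem_union, mem_RE_false] at h'
        omega
  have g2 : ∀ e ∈ EC2 X Y m b I, e ∉ HL X Y m m := by
    intro e he h'
    rw [mem_EC2] at he
    rcases he with ⟨i, hi, he⟩ | he
    · obtain ⟨h1, h2⟩ := yt_bd (Y := Y) hH hi
      obtain ⟨x, y, _ | _⟩ := e
      · rw [dl_f, mem_LRE_true] at he
        simp only [HL, Finset.mem_union, mem_RE_false] at h'
        omega
      · rw [dl_t, mem_LRE_false] at he
        simp only [HL, Finset.mem_union, mem_RE_true] at h'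
        omega
    · obtain ⟨x, y, _ | _⟩ := e
      · rw [dl_f, mem_TBE_true] at he
        simp only [HL, Finset.mem_union, mem_RE_false] at h'
        omega
      · rw [dl_t, mem_TBE_false] at he
        simp only [HL, Finset.mem_union, mem_RE_true] at h'
        omega
  have key := trialG (n := 1) (N := NK X Y m b I) hm1 le_rfl (by omega) hF0 hk hst (by omega)
    hBl hent hEk hkE (by
      intro F G h1 h2
      refine NK_mono ?_ ?_
      · intro e he heF
        by_contra hcon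
        exact g1 e he (h1 e heF hcon)
      · intro e he heG
        by_contra hcon
        exact g2 e he (h2 e heG hcon))
  rw [e1] at key
  refine le_trans ?_ (key.trans (Pr_mono two_ok fun G hG => ?_))
  · have e2 : q0 ^ (2 * 1 + 4) * q0 ^ (2 * 1 + 4) * q0 ^ (2 * kk ^ 2) =
        Real.exp (Real.log q0 * (12 + 2 * (kk:ℝ) ^ 2)) := by
      rw [← pow_add, ← pow_add]
      have : Real.log q0 * (12 + 2 * (kk:ℝ) ^ 2) =
          ((2 * 1 + 4 + (2 * 1 + 4) + 2 * kk ^ 2 : ℕ) : ℝ) * Real.log q0 := by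
        push_cast; ring
      rw [this, Real.exp_nat_mul, Real.exp_log q0_pos]
    refine le_trans ?_ (mul_le_mul_of_nonneg_left hs
      (mul_nonneg (pow_nonneg q0_pos.le _) (pow_nonneg q0_pos.le _)))
    rw [e2]
    refine Real.exp_le_exp.mpr ?_
    have hkR : (20 : ℝ) ≤ kk := by exact_mod_cast hkk
    have hZ1 : 1 ≤ (kk:ℝ) ^ 2 := by nlinarith
    nlinarith
  · rintro ⟨hN, hBL, hBU⟩
    have hFG : ∀ e ∈ RB X Y m, (e ∈ G ↔ e ∈ (↑((F0 ∩ k) ∪ G) : Set Edg)) := by
      intro e he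
      rw [Finset.mem_coe, mem_union, mem_inter]
      exact ⟨Or.inr, fun h => h.elim (fun h => absurd h.2 (fresh e he)) id⟩
    exact comb_sn hb hbm12 hH hFG hBL hBU hN.1 hN.2

end Pool.Agent.N944.AD
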