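import Pool.Agent.Y995.FS.LimS2

/-!
Holes of the critical interface: the probability that the interface visits all the squares of a
sparse array, at mesh `δ`.
-/

set_option autoImplicit false
set_option linter.unusedVariables false

namespace Pool.Agent.N944.AD

open H974 Finset H342P H984P H984N Pool.Agent.Y995.FS MeasureTheory Filter Topology

/-- independent events in disjoint sets -/
theorem pr_forall {ι : Type*} [DecidableEq ι] {U : Finset Edg} {θ : ℝ} (hθ : 0 ≤ θ)
    (s : Finset ι) (X : ι → Finset Edg) (A : ι → Finset Edg → Prop)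
    (hX : ∀ i ∈ s, X i ⊆ U) (hd : ∀ i ∈ s, ∀ j ∈ s, i ≠ j → Disjoint (X i) (X j))
    (hA : ∀ i ∈ s, ∀ F Y : Finset Edg, X i ⊆ Y → (A i F ↔ A i (F ∩ Y)))
    (hp : ∀ i ∈ s, Pr (fun _ => (1/2:ℝ)) U (A i) ≤ θ) :
    Pr (fun _ => (1/2:ℝ)) U (fun F => ∀ i ∈ s, A i F) ≤ θ ^ s.card := by
  induction s using Finset.induction_on with
  | empty => 
    simp only [Finset.card_empty, pow_zero]
    exact Pr_le_one two_ok _ _
  | @insert a s ha ih =>
    have ih' := ih (fun i hi => hX i (mem_insert_of_mem hi))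
      (fun i hi j hj => hd i (mem_insert_of_mem hi) j (mem_insert_of_mem hj))
      (fun i hi => hA i (mem_insert_of_mem hi)) (fun i hi => hp i (mem_insert_of_mem hi))
    have e1 : Pr (fun _ => (1/2:ℝ)) U (fun F => ∀ i ∈ insert a s, A i F) =
        Pr (fun _ => (1/2:ℝ)) U (fun F => A a F ∧ ∀ i ∈ s, A i F) :=
      Pr_congr fun F _ => by simp only [mem_insert, forall_eq_or_imp]
    rw [e1, Pr_indep (S := X a) (T := s.biUnion X) (hX a (mem_insert_self a s))
      (Finset.biUnion_subset.2 fun i hi => hX i (mem_insert_of_mem hi)) ?_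
      (fun F _ => hA a (mem_insert_self a s) F _ (Finset.Subset.refl _)) ?_,
      Finset.card_insert_of_notMem ha, pow_succ, mul_comm]
    · exact mul_le_mul ih' (hp a (mem_insert_self a s)) (Pr_nonneg two_ok _ _) (pow_nonneg hθ _)
    · rw [Finset.disjoint_biUnion_right]
      intro i hi
      refine hd a (mem_insert_self a s) i (mem_insert_of_mem hi) ?_
      rintro rfl
      exact ha hi
    · intro F _
      exact ⟨fun h i hi => (hA i (mem_insert_of_mem hi) F _ (Finset.subset_biUnion_of_mem X hi)).1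
        (h i hi), fun h i hi => (hA i (mem_insert_of_mem hi) F _
        (Finset.subset_biUnion_of_mem X hi)).2 (h i hi)⟩

/-- the box of radius `R` around `c` -/
noncomputable def bxR (c : Vtx) (R : ℕ) : Finset Edg :=
  RE (c.1 - R) (c.1 + R) (c.2 - R) (c.2 + R)

/-- A visited state has two arms inside of a box. -/
theorem vis_loc {D : Dm} (hD : D.Ok) {F : Finset Edg} (hF : F ⊆ D.edges) {σ : St}
    (h : D.Vis F σ) {c : Vtx} {k R : ℕ}
    (hc : inR (c.1 - k) (c.1 + k) (c.2 - k) (c.2 + k) σ.1)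
    (hkR : k + 2 ≤ R) (h1 : D.l ≤ c.1 - R) (h2 : c.1 + R ≤ D.r) (h3 : 0 ≤ c.2 - R)
    (h4 : c.2 + R ≤ D.h) : two_An (bxR c R) c (k + 1) R F := by
  obtain ⟨i, hi, rfl⟩ := h
  obtain ⟨g1, g, hg, g2⟩ := walk_clu hD hF hi
  have g1' : Reach (D.cfg F) (0, 0) (D.walk F i).1 := g1
  obtain ⟨σ, hσ⟩ : ∃ σ, σ = D.walk F i := ⟨_, rfl⟩
  rw [← hσ] at g1' g2 hc
  have hfσ := arms_face σ
  unfold inR at hc
  obtain ⟨c1, c2⟩ := c
  simp only at hc h1 h2 h3 h4
  constructor
  · obtain ⟨y, hy, hp⟩ := arms_reach (X := (↑(F ∩ bxR (c1, c2) R) : Set Edg))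
      (G := (↑(F ∩ bxR (c1, c2) R) : Set Edg))
      (fun z => (c1 - R < z.1 ∧ z.1 < c1 + R) ∧ (c2 - R < z.2 ∧ z.2 < c2 + R))
      (fun e he hB => by
        have heF : e ∈ F := by
          have : e ∈ (↑F : Set Edg) := by
            rcases hB with hB | hB
            · refine arms_cfg he (Or.inl rfl) ?_
              omega
            · refine arms_cfg he (Or.inr rfl) ?_
              omega
          exact Finset.mem_coe.1 this
        rw [Finset.mem_coe, mem_inter]
        refine ⟨heF, ?_⟩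
        obtain ⟨x, y, _ | _⟩ := e
        · simp only [src_mk, tgt_false] at hB
          simp only [bxR, mem_RE_false]
          omega
        · simp only [src_mk, tgt_true] at hB
          simp only [bxR, mem_RE_true]
          omega) (fun e he => he.2) g1'.symm (by
        show ¬ ((c1 - R < (0 : ℤ) ∧ (0 : ℤ) < c1 + R) ∧ (c2 - R < (0 : ℤ) ∧ (0 : ℤ) < c2 + R))
        omega)
    refine ⟨σ.1, y, ?_, ?_, hp⟩
    · unfold inR
      push_cast
      omega
    · simp only
      omega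
  · obtain ⟨y, hy, hq⟩ := arms_dreach
      (X := (↑(bxR (c1, c2) R) : Set Edg))
      (G := (↑(bxR (c1, c2) R \ F) : Set Edg))
      (fun z => (c1 - R ≤ z.1 ∧ z.1 ≤ c1 + R - 1) ∧ (c2 - R ≤ z.2 ∧ z.2 ≤ c2 + R - 1))
      (fun e _ hB => by
        rw [Finset.mem_coe]
        obtain ⟨x, y, _ | _⟩ := e
        · simp only [dsrc_false, dtgt_mk] at hB
          simp only [bxR, mem_RE_false]
          omega
        · simp only [dsrc_true, dtgt_mk] at hB
          simp only [bxR, mem_RE_true]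
          omega)
      (by
        rw [Finset.coe_sdiff]
        rintro e ⟨he, he'⟩
        exact ⟨he', fun h => he.2 (Or.inl h)⟩) g2.symm (by
        rcases hg with hg | hg | hg <;> omega)
    refine ⟨face σ, y, ?_, ?_, hq⟩
    · unfold inR
      push_cast
      omega
    · simp only
      omega

/-- The interface visits all the boxes of radius `k` around the centres. -/
theorem array_pr {C2 : ℝ} (hC2 : 0 < C2) (hA : AnnUp C2) {D : Dm} (hD : D.Ok)
    {ι : Type*} [DecidableEq ι] (s : Finset ι) (c : ι → Vtx) {k R : ℕ} (hkR : k + 2 ≤ R)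
    (hin : ∀ i ∈ s, (D.l ≤ (c i).1 - R ∧ (c i).1 + R ≤ D.r) ∧ (0 ≤ (c i).2 - R ∧
      (c i).2 + R ≤ D.h))
    (hd : ∀ i ∈ s, ∀ j ∈ s, i ≠ j → 2 * (R : ℤ) < sd (c i) (c j)) {θ : ℝ}
    (hθ : C2 * (((k + 1 : ℕ) : ℝ) / R) ^ (1/4 : ℝ) ≤ θ) :
    P D.edges (fun F => ∀ i ∈ s, ∃ σ : St, D.Vis F σ ∧
      inR ((c i).1 - k) ((c i).1 + k) ((c i).2 - k) ((c i).2 + k) σ.1) ≤ θ ^ s.card := by
  have hθ0 : 0 ≤ θ := le_trans (by positivity) hθ
  have hsub : ∀ i ∈ s, bxR (c i) R ⊆ D.edges := by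
    intro i hi
    obtain ⟨⟨h1, h2⟩, h3, h4⟩ := hin i hi
    unfold bxR Dm.edges
    exact RE_subset h1 h2 h3 h4
  refine le_trans (Pr_mono two_ok fun F hF h => ?_) (pr_forall hθ0 s (fun i => bxR (c i) R)
    (fun i => two_An (bxR (c i) R) (c i) (k + 1) R) hsub ?_ ?_ ?_)
  · intro i hi
    obtain ⟨σ, h1, h2⟩ := h i hi
    obtain ⟨⟨g1, g2⟩, g3, g4⟩ := hin i hi
    exact vis_loc hD hF h1 h2 hkR g1 g2 g3 g4
  · intro i hi j hj hij
    have h := hd i hi j hj hij
    rw [Finset.disjoint_left]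
    rintro ⟨x, y, _ | _⟩ h1 h2
    · simp only [bxR, mem_RE_false] at h1 h2
      rw [det_sd_eq] at h
      omega
    · simp only [bxR, mem_RE_true] at h1 h2
      rw [det_sd_eq] at h
      omega
  · intro i _ F Y hY
    exact two_loc' hY _ _ _ _
  · intro i hi
    exact (two_pr hA (hsub i hi) (c i) (r := k + 1) (R := R) (by omega) (by omega)).trans hθ

end Pool.Agent.N944.AD
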