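import Pool.Agent.N944.AD.Up

/-!
Holes of the critical interface: passage to the limit.
-/

set_option autoImplicit false
set_option linter.unusedVariables false

namespace Pool.Agent.N944.AD

open H974 Finset H342P H984P H984N Pool.Agent.Y995.FS MeasureTheory Filter Topology

/-- The open square of side `2 r` around `y`. -/
def Sq (y : ℂ) (r : ℝ) : Set ℂ := {x | |x.re - y.re| < r ∧ |x.im - y.im| < r}

theorem sq_open (y : ℂ) (r : ℝ) : IsOpen (Sq y r) := by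
  refine IsOpen.inter ?_ ?_
  · exact isOpen_lt (Complex.continuous_re.sub continuous_const).abs continuous_const
  · exact isOpen_lt (Complex.continuous_im.sub continuous_const).abs continuous_const

/-- The centre `(i, j)` of the array with corner `r a`. -/
noncomputable def yc (r : ℝ) (M : ℕ) (a : ℤ × ℤ) (i j : ℕ) : ℂ :=
  ⟨r * (a.1 + M * i), r * (a.2 + M * j)⟩

/-- Curves which visit all the squares of the array. -/
def HitA (R : Rect) (r : ℝ) (M N : ℕ) (a : ℤ × ℤ) : Set X :=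
  {p | ∀ i : Fin N × Fin N, ∃ u : unitInterval, p.1 u ∈ Sq (yc r M a i.1 i.2) r}

/-- The array is in the bulk. -/
def InB (R : Rect) (r : ℝ) (M N : ℕ) (a : ℤ × ℤ) : Prop :=
  ∀ i : Fin N × Fin N, M * r ≤ dep R (yc r M a i.1 i.2)

/-- Curves which visit all the squares of an array in the bulk. -/
def BadH (R : Rect) (r : ℝ) (M N : ℕ) : Set X :=
  {p | ∃ a : ℤ × ℤ, InB R r M N a ∧ p ∈ HitA R r M N a}

theorem hitA_open (R : Rect) (r : ℝ) (M N : ℕ) (a : ℤ × ℤ) : IsOpen (HitA R r M N a) := by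
  have e : HitA R r M N a = ⋂ i : Fin N × Fin N, ⋃ u : unitInterval,
      {p : X | p.1 u ∈ Sq (yc r M a i.1 i.2) r} := by
    ext p
    simp only [HitA, Set.mem_ofPred_eq, Set.mem_iInter, Set.mem_iUnion]
  rw [e]
  refine isOpen_iInter_of_finite fun i => isOpen_iUnion fun u => ?_
  have c0 : Continuous (fun p : X => p.1 u) := by fun_prop
  exact (sq_open _ _).preimage c0

theorem badH_open (R : Rect) (r : ℝ) (M N : ℕ) : IsOpen (BadH R r M N) := by
  have e : BadH R r M N = ⋃ a : ℤ × ℤ, ⋃ _ : InB R r M N a, HitA R r M N a := by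
    ext p
    simp only [BadH, Set.mem_ofPred_eq, Set.mem_iUnion, exists_prop]
  rw [e]
  exact isOpen_iUnion fun a => isOpen_iUnion fun _ => hitA_open R r M N a

/-- probability for one array at mesh `δ` -/
theorem hitA_pr {C2 : ℝ} (hC2 : 0 < C2) (hA : AnnUp C2) {M : ℕ} (hM3 : 3 ≤ M)
    (hM : C2 * (8 / (M : ℝ)) ^ (1/4 : ℝ) ≤ 1/2) {R : Rect} {δ r : ℝ} (hδ : 0 < δ)
    (hδr : 100 * δ ≤ r) (hok : (R.dm δ).Ok) {N : ℕ} {a : ℤ × ℤ} (hin : InB R r M N a) :
    R.prob δ (fun F => (R.curve δ F, R.time δ F) ∈ HitA R r M N a) ≤ (1/2) ^ (N ^ 2) := by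
  classical
  have hr0 : 0 < r := by linarith
  have hMR : (3:ℝ) ≤ M := by exact_mod_cast hM3
  obtain ⟨x, hx⟩ : ∃ x : ℝ, x = r / δ := ⟨_, rfl⟩
  have hx1 : 100 ≤ x := by rw [hx, le_div_iff₀ hδ]; exact hδr
  have hxδ : x * δ = r := by rw [hx]; field_simp
  obtain ⟨k, hk⟩ : ∃ k : ℕ, k = ⌈x⌉₊ + 3 := ⟨_, rfl⟩
  have hk1 : x + 3 ≤ k := by
    rw [hk]; push_cast
    have := Nat.le_ceil x
    linarith
  have hk2 : (k : ℝ) ≤ x + 4 := by
    rw [hk]; push_cast
    have := Nat.ceil_lt_add_one (show 0 ≤ x by linarith)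
    linarith
  obtain ⟨L, hL⟩ : ∃ L : ℕ, L = ⌊M * x / 2⌋₊ - 2 := ⟨_, rfl⟩
  have hfl1 : ((⌊M * x / 2⌋₊ : ℕ) : ℝ) ≤ M * x / 2 := Nat.floor_le (by positivity)
  have hfl2 : M * x / 2 < ((⌊M * x / 2⌋₊ : ℕ) : ℝ) + 1 := Nat.lt_floor_add_one _
  have hMx : 3 * x ≤ M * x := mul_le_mul_of_nonneg_right hMR (by linarith)
  have hfl3 : 2 ≤ ⌊M * x / 2⌋₊ := by
    have : (2:ℝ) ≤ ((⌊M * x / 2⌋₊ : ℕ) : ℝ) := by linarith
    exact_mod_cast this
  have hLr : (L : ℝ) = ((⌊M * x / 2⌋₊ : ℕ) : ℝ) - 2 := by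
    rw [hL, Nat.cast_sub hfl3]; norm_num
  have hL1 : (L : ℝ) ≤ M * x / 2 - 2 := by rw [hLr]; linarith
  have hL2 : M * x / 2 - 3 ≤ (L : ℝ) := by rw [hLr]; linarith
  have hkL : k + 2 ≤ L := by
    have : ((k + 2 : ℕ) : ℝ) ≤ L := by push_cast; linarith
    exact_mod_cast this
  obtain ⟨c, hc⟩ : ∃ c : Fin N × Fin N → Vtx, c = fun i =>
    (⌊(yc r M a i.1 i.2).re / δ⌋, ⌊(yc r M a i.1 i.2).im / δ⌋ - 1) := ⟨_, rfl⟩
  have hc1 : ∀ i, ((c i).1 : ℝ) ≤ (yc r M a i.1 i.2).re / δ ∧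
      (yc r M a i.1 i.2).re / δ < (c i).1 + 1 := by
    intro i
    rw [hc]
    exact ⟨Int.floor_le _, Int.lt_floor_add_one _⟩
  have hc2 : ∀ i, ((c i).2 : ℝ) + 1 ≤ (yc r M a i.1 i.2).im / δ ∧
      (yc r M a i.1 i.2).im / δ < (c i).2 + 2 := by
    intro i
    rw [hc]
    simp only
    push_cast
    have h1 := Int.floor_le ((yc r M a i.1 i.2).im / δ)
    have h2 := Int.lt_floor_add_one ((yc r M a i.1 i.2).im / δ)
    constructor <;> linarith
  have hθ : C2 * (((k + 1 : ℕ) : ℝ) / L) ^ (1/4 : ℝ) ≤ 1/2 := by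
    refine le_trans (mul_le_mul_of_nonneg_left ?_ hC2.le) hM
    refine Real.rpow_le_rpow (by positivity) ?_ (by norm_num)
    have hL0 : (0:ℝ) < L := by linarith
    rw [div_le_div_iff₀ hL0 (by linarith)]
    push_cast
    nlinarith
  have hcard : (Finset.univ : Finset (Fin N × Fin N)).card = N ^ 2 := by
    rw [Finset.card_univ, Fintype.card_prod, Fintype.card_fin, sq]
  have key := array_pr hC2 hA hok (Finset.univ : Finset (Fin N × Fin N)) c hkL ?_ ?_ hθ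
  rotate_left
  · intro i _
    have h1 := hin i
    unfold dep at h1
    rw [le_min_iff, le_min_iff, le_min_iff] at h1
    obtain ⟨⟨g1, g2⟩, g3, g4⟩ := h1
    have f1 : M * x ≤ (yc r M a i.1 i.2).re / δ + R.A / δ := by
      rw [← add_div, le_div_iff₀ hδ, mul_assoc, hxδ]; exact g1
    have f2 : M * x ≤ R.B / δ - (yc r M a i.1 i.2).re / δ := by
      rw [← sub_div, le_div_iff₀ hδ, mul_assoc, hxδ]; exact g2
    have f3 : M * x ≤ (yc r M a i.1 i.2).im / δ := by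
      rw [le_div_iff₀ hδ, mul_assoc, hxδ]; exact g3
    have f4 : M * x ≤ R.H / δ - (yc r M a i.1 i.2).im / δ := by
      rw [← sub_div, le_div_iff₀ hδ, mul_assoc, hxδ]; exact g4
    have k1 := hc1 i
    have k2 := hc2 i
    have e1 : (((R.dm δ).l : ℤ) : ℝ) ≤ -(R.A / δ) + 1 := by
      have : (R.dm δ).l = ⌊-(R.A / δ)⌋ + 1 := rfl
      rw [this]; push_cast
      have := Int.floor_le (-(R.A / δ))
      linarith
    have e2 : R.B / δ - 1 ≤ (((R.dm δ).r : ℤ) : ℝ) := by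
      have : (R.dm δ).r = ⌈R.B / δ⌉ - 1 := rfl
      rw [this]; push_cast
      have := Int.le_ceil (R.B / δ)
      linarith
    have e3 : R.H / δ - 2 ≤ (((R.dm δ).h : ℤ) : ℝ) := by
      have : (R.dm δ).h = ⌈R.H / δ⌉ - 2 := rfl
      rw [this]; push_cast
      have := Int.le_ceil (R.H / δ)
      linarith
    refine ⟨⟨?_, ?_⟩, ?_, ?_⟩
    · have : (((R.dm δ).l : ℤ) : ℝ) ≤ (((c i).1 - L : ℤ) : ℝ) := by push_cast; linarith
      exact_mod_cast this
    · have : (((c i).1 + L : ℤ) : ℝ) ≤ (((R.dm δ).r : ℤ) : ℝ) := by push_cast; linarith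
      exact_mod_cast this
    · have : ((0 : ℤ) : ℝ) ≤ (((c i).2 - L : ℤ) : ℝ) := by push_cast; linarith
      exact_mod_cast this
    · have : (((c i).2 + L : ℤ) : ℝ) ≤ (((R.dm δ).h : ℤ) : ℝ) := by push_cast; linarith
      exact_mod_cast this
  · intro i _ j _ hij
    have k1 := hc1 i
    have k2 := hc2 i
    have k3 := hc1 j
    have k4 := hc2 j
    have sep : ∀ (b : ℤ) (m n : ℕ), m ≠ n →
        M * x ≤ |r * ((b : ℝ) + M * m) / δ - r * ((b : ℝ) + M * n) / δ| := by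
      intro b m n hmn
      have e : r * ((b : ℝ) + M * m) / δ - r * ((b : ℝ) + M * n) / δ =
          M * x * ((m : ℝ) - n) := by rw [hx]; field_simp; ring
      rw [e, abs_mul, abs_of_nonneg (by positivity)]
      have h1 : (1 : ℝ) ≤ |(m : ℝ) - n| := by
        have h2 : (1 : ℤ) ≤ |(m : ℤ) - n| := Int.one_le_abs (by omega)
        have h3 : ((1 : ℤ) : ℝ) ≤ ((|(m : ℤ) - n| : ℤ) : ℝ) := by exact_mod_cast h2
        rw [Int.cast_abs] at h3
        push_cast at h3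
        exact h3
      exact le_mul_of_one_le_right (by positivity) h1
    have hgoal : ((2 * (L : ℤ) : ℤ) : ℝ) < ((sd (c i) (c j) : ℤ) : ℝ) := by
      unfold sd
      rw [Int.cast_max, Int.cast_abs, Int.cast_abs]
      push_cast
      by_cases h1 : i.1 = j.1
      · have h2 : i.2 ≠ j.2 := fun h2 => hij (Prod.ext h1 h2)
        have h3 := sep a.2 i.2 j.2 (fun h => h2 (Fin.ext h))
        have e1 : (yc r M a i.1 i.2).im = r * ((a.2 : ℝ) + M * (i.2 : ℕ)) := rfl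
        have e2 : (yc r M a j.1 j.2).im = r * ((a.2 : ℝ) + M * (j.2 : ℕ)) := rfl
        rw [e1] at k2
        rw [e2] at k4
        refine lt_of_lt_of_le ?_ (le_max_right _ _)
        rcases le_abs.1 h3 with h4 | h4
        · refine lt_of_lt_of_le ?_ (le_abs_self _)
          linarith
        · refine lt_of_lt_of_le ?_ (neg_le_abs _)
          linarith
      · have h3 := sep a.1 i.1 j.1 (fun h => h1 (Fin.ext h))
        have e1 : (yc r M a i.1 i.2).re = r * ((a.1 : ℝ) + M * (i.1 : ℕ)) := rfl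
        have e2 : (yc r M a j.1 j.2).re = r * ((a.1 : ℝ) + M * (j.1 : ℕ)) := rfl
        rw [e1] at k1
        rw [e2] at k3
        refine lt_of_lt_of_le ?_ (le_max_left _ _)
        rcases le_abs.1 h3 with h4 | h4
        · refine lt_of_lt_of_le ?_ (le_abs_self _)
          linarith
        · refine lt_of_lt_of_le ?_ (neg_le_abs _)
          linarith
    exact_mod_cast hgoal
  · rw [hcard] at key
    refine le_trans (Pr_mono two_ok fun F hF h => ?_) key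
    intro i _
    obtain ⟨u, hu⟩ := h i
    obtain ⟨n, hn⟩ : ∃ n, n = (R.dm δ).len F := ⟨_, rfl⟩
    obtain ⟨p, hp⟩ : ∃ p : ℕ → ℂ, p = fun k => pos δ ((R.dm δ).walk F k) := ⟨_, rfl⟩
    have hcv : R.curve δ F = pl n p := by unfold Rect.curve; rw [hn, hp]
    have hu' : (R.curve δ F) u ∈ Sq (yc r M a i.1 i.2) r := hu
    rw [hcv] at hu'
    have hstep : ∀ k < n, dist (p k) (p (k + 1)) ≤ δ / 2 := fun k _ => by
      have := pos_nxt hδ.le ((R.dm δ).cfg F) ((R.dm δ).walk F k)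
      rw [hp]
      rwa [← walk_succ] at this
    obtain ⟨m, hm, hd⟩ := pl_close (by positivity) hstep u
    have e1 : p m = pos δ ((R.dm δ).walk F m) := by rw [hp]
    rw [e1] at hd
    refine ⟨(R.dm δ).walk F m, ⟨m, by rw [← hn]; exact hm, rfl⟩, ?_⟩
    obtain ⟨σ, hσ⟩ : ∃ σ, σ = (R.dm δ).walk F m := ⟨_, rfl⟩
    rw [← hσ] at hd ⊢
    have hre := abs_le.1 (ML.le_dist_re ((pl n p) u) (pos δ σ))
    have him := abs_le.1 (ML.le_dist_im ((pl n p) u) (pos δ σ))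
    obtain ⟨hu1, hu2⟩ := hu'
    rw [abs_lt] at hu1 hu2
    rw [ML.pos_re] at hre
    rw [ML.pos_im] at him
    have hqx := abs_le.1 (ML.qx_le σ.2)
    have hqy := abs_le.1 (ML.qy_le σ.2)
    obtain ⟨Y1, hY1⟩ : ∃ Y1, Y1 = (yc r M a i.1 i.2).re / δ := ⟨_, rfl⟩
    obtain ⟨Y2, hY2⟩ : ∃ Y2, Y2 = (yc r M a i.1 i.2).im / δ := ⟨_, rfl⟩
    have eY1 : (yc r M a i.1 i.2).re = Y1 * δ := by rw [hY1]; field_simp
    have eY2 : (yc r M a i.1 i.2).im = Y2 * δ := by rw [hY2]; field_simp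
    have k1 := hc1 i
    have k2 := hc2 i
    rw [← hY1] at k1
    rw [← hY2] at k2
    rw [eY1, ← hxδ] at hu1
    rw [eY2, ← hxδ] at hu2
    have w1 : δ * (((σ.1.1 : ℤ) : ℝ) + ML.qx σ.2) ≤ δ * (Y1 + x + 1/2) := by linarith
    have w2 : δ * (Y1 - x - 1/2) ≤ δ * (((σ.1.1 : ℤ) : ℝ) + ML.qx σ.2) := by linarith
    have w3 : δ * (((σ.1.2 : ℤ) : ℝ) + 1 + ML.qy σ.2) ≤ δ * (Y2 + x + 1/2) := by linarith
    have w4 : δ * (Y2 - x - 1/2) ≤ δ * (((σ.1.2 : ℤ) : ℝ) + 1 + ML.qy σ.2) := by linarith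
    have v1 := le_of_mul_le_mul_left w1 hδ
    have v2 := le_of_mul_le_mul_left w2 hδ
    have v3 := le_of_mul_le_mul_left w3 hδ
    have v4 := le_of_mul_le_mul_left w4 hδ
    unfold inR
    refine ⟨⟨?_, ?_⟩, ?_, ?_⟩
    · have : (((c i).1 - k : ℤ) : ℝ) ≤ ((σ.1.1 : ℤ) : ℝ) := by push_cast; linarith
      exact_mod_cast this
    · have : ((σ.1.1 : ℤ) : ℝ) ≤ (((c i).1 + k : ℤ) : ℝ) := by push_cast; linarith
      exact_mod_cast this
    · have : (((c i).2 - k : ℤ) : ℝ) ≤ ((σ.1.2 : ℤ) : ℝ) := by push_cast; linarith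
      exact_mod_cast this
    · have : ((σ.1.2 : ℤ) : ℝ) ≤ (((c i).2 + k : ℤ) : ℝ) := by push_cast; linarith
      exact_mod_cast this

end Pool.Agent.N944.AD
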